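import Pool.Agent.H488.L.Semi

/-!
# Near relations in several blocks of numbers `G_w(y) - θ_(i, w)`
-/

set_option autoImplicit false
set_option linter.unusedSectionVars false

namespace Pool.Agent.H488.L

open Pool.Agent.H488.M (vl Bd Meas pt)
open Pool.Agent.N743.SS (lenM)
open Pool.Agent.H488.R (rk rk_mono rk_cls cls mem_cls alg_cls cls_add cls_neg cls_vl rk_alg rk_fin
  rk_range_le rk_of_ind exists_coord lenM_coeff lenM_nonneg totalDegree_le_of exists_int_poly
  subst_Bd Ci ca cp cp_val)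

variable {σ τ ε ι : Type} [Fintype σ] [Fintype τ] [Fintype ε] [Fintype ι]

/-- the numbers `G_w(y) - θ_(i, w)` -/
noncomputable def bv (G : ι × σ → MvPolynomial τ ℂ) (y : τ → ℂ) (θ : ι × σ → ℂ) (i : ι) (w : σ) : ℂ :=
  MvPolynomial.eval y (G (i, w)) - θ (i, w)

/-- the substitution -/
noncomputable def bF (G : ι × σ → MvPolynomial τ ℂ) (i : ι) :
    ε ⊕ σ → MvPolynomial ((τ ⊕ Ci G) ⊕ (ε ⊕ (ι × σ))) ℤ :=
  Sum.elim (fun l => MvPolynomial.X (Sum.inr (Sum.inl l))) fun w =>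
    MvPolynomial.rename Sum.inl (cp G (i, w)) - MvPolynomial.X (Sum.inr (Sum.inr (i, w)))

lemma bF_val (G : ι × σ → MvPolynomial τ ℂ) (i : ι) (s : τ ⊕ Ci G → ℂ) (η : ε → ℂ) (θ : ι × σ → ℂ)
    (P : MvPolynomial (ε ⊕ σ) ℤ) :
    vl (Sum.elim s (Sum.elim η θ)) (MvPolynomial.aeval (bF G i) P) =
      vl (Sum.elim η fun w => vl s (cp G (i, w)) - θ (i, w)) P := by
  rw [vl, vl, MvPolynomial.comp_aeval_apply]
  congr 2
  funext o
  rcases o with l | w
  · rw [bF, Sum.elim_inl, MvPolynomial.aeval_X]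
    rfl
  · rw [bF, Sum.elim_inr, map_sub, MvPolynomial.aeval_X, MvPolynomial.aeval_rename]
    rfl

/-- **Near relations in blocks are exact nearby.** -/
theorem blockLaw (η : ε → ℂ) (θ : ι × σ → ℂ) (h : Meas (Sum.elim η θ)) (G : ι × σ → MvPolynomial τ ℂ)
    (hG : ∀ w m, IsAlgebraic ℚ ((G w).coeff m)) (d : ℕ) (y : τ → ℂ) (r₀ : ℕ)
    (hy : rk (Set.range (Sum.elim η y)) ≤ ((Fintype.card ε + r₀ : ℕ) : ℕ∞)) :
    ∃ k : ℕ, ∃ h₁ : ℝ, 1 ≤ h₁ ∧ ∀ H : ℝ, h₁ ≤ H → ∃ (v : ι → σ → ℂ) (p : ι → ℕ) (y' : τ → ℂ)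
      (r' : ℕ),
      (∀ i, ∀ P : MvPolynomial (ε ⊕ σ) ℤ, Bd d H P →
        H ^ k * ‖vl (Sum.elim η (bv G y θ i)) P‖ ≤ 1 → vl (Sum.elim η (v i)) P = 0) ∧
      (∀ P : MvPolynomial (ε ⊕ τ) ℤ, Bd d H P →
        H ^ k * ‖vl (Sum.elim η y) P‖ ≤ 1 → vl (Sum.elim η y') P = 0) ∧
      rk (Set.range (Sum.elim η y')) = ((Fintype.card ε + r' : ℕ) : ℕ∞) ∧ r' ≤ r₀ ∧
      (∀ i, rk (Set.range (Sum.elim η (v i))) = p i) ∧
      ∀ S : Finset ι, S.card * (Fintype.card ε + Fintype.card σ) ≤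
        r' + ∑ i ∈ S, p i := by
  classical
  obtain ⟨nr, hnr⟩ := rk_fin (Sum.elim η y)
  obtain ⟨Dr, Lr, δr, hδr, hsemi⟩ := rank_semi (Sum.elim η y) nr hnr
  choose dj Bj hBj1 hBj using fun i : ι => subst_Bd (bF (ε := ε) G i) d
  have haalg : ∀ p : Ci G, IsAlgebraic ℚ (ca G p) := fun p => hG p.1 p.2
  choose q hq0 hq using fun p : Ci G => exists_int_poly (haalg p)
  obtain ⟨Q, hQ⟩ : ∃ Q : Ci G → MvPolynomial ((τ ⊕ Ci G) ⊕ (ε ⊕ (ι × σ))) ℤ,
      Q = fun p => Polynomial.aeval (MvPolynomial.X (Sum.inl (Sum.inr p))) (q p) := ⟨_, rfl⟩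
  obtain ⟨D, hD⟩ : ∃ D : ℕ, D = (∑ i, Fintype.card ((τ ⊕ Ci G) ⊕ (ε ⊕ (ι × σ))) * dj i) +
      (∑ p, (Q p).totalDegree) + Dr + Fintype.card (ε ⊕ τ) * d := ⟨_, rfl⟩
  obtain ⟨k, htr⟩ := H596.U.transfer (τ := τ ⊕ Ci G) (S.meas_conv h) D 1 1
  obtain ⟨K, hK⟩ : ∃ K : ℝ, K = 2 + (∑ l, ‖y l‖) + (∑ p : Ci G, ‖ca G p‖) + (∑ i, Bj i) +
      (∑ p, lenM (Q p)) + |Lr| + 1 / δr := ⟨_, rfl⟩
  have s4 : 0 ≤ |Lr| := abs_nonneg _
  have s5 : 0 < 1 / δr := by positivity
  have s0 : 0 ≤ ∑ l, ‖y l‖ := Finset.sum_nonneg fun _ _ => norm_nonneg _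
  have s1 : 0 ≤ ∑ p : Ci G, ‖ca G p‖ := Finset.sum_nonneg fun _ _ => norm_nonneg _
  have s2 : 0 ≤ ∑ i, Bj i := Finset.sum_nonneg fun i _ => by linarith [hBj1 i]
  have s3 : 0 ≤ ∑ p, lenM (Q p) := Finset.sum_nonneg fun _ _ => lenM_nonneg _
  have hK2 : 2 ≤ K := by rw [hK]; linarith
  refine ⟨k + 1, K ^ k, one_le_pow₀ (by linarith), fun H hH => ?_⟩
  have hK1 : 1 ≤ K ^ k := one_le_pow₀ (by linarith)
  have hH1 : 1 ≤ H := hK1.trans hH
  have hH0 : 0 ≤ H := by linarith
  have hKH : K ≤ K * H := le_mul_of_one_le_right (by linarith) hH1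
  obtain ⟨t, ht⟩ : ∃ t : τ ⊕ Ci G → ℂ, t = Sum.elim y (ca G) := ⟨_, rfl⟩
  have htb : ∀ i, ‖t i‖ ≤ (K * H) ^ 1 := by
    intro i
    rw [pow_one]
    refine le_trans ?_ hKH
    rw [ht]
    rcases i with i | p
    · have h1 : ‖y i‖ ≤ ∑ l, ‖y l‖ :=
        Finset.single_le_sum (f := fun l => ‖y l‖) (fun _ _ => norm_nonneg _) (Finset.mem_univ i)
      rw [Sum.elim_inl, hK]; linarith
    · have h1 : ‖ca G p‖ ≤ ∑ p : Ci G, ‖ca G p‖ :=
        Finset.single_le_sum (f := fun p : Ci G => ‖ca G p‖) (fun _ _ => norm_nonneg _)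
          (Finset.mem_univ p)
      rw [Sum.elim_inr, hK]; linarith
  obtain ⟨t', htc, htr⟩ := htr (K * H) (hK2.trans hKH) t htb
  obtain ⟨v, hv⟩ : ∃ v : ι → σ → ℂ, v = fun i w => vl t' (cp G (i, w)) - θ (i, w) := ⟨_, rfl⟩
  choose p hp using fun i => rk_fin (Sum.elim η (v i))
  obtain ⟨y', hy'⟩ : ∃ y' : τ → ℂ, y' = fun l => t' (Sum.inl l) := ⟨_, rfl⟩
  have hind := Pool.Agent.H488.S.algInd h
  have hindη : AlgebraicIndependent ℚ η := hind.comp Sum.inl Sum.inl_injective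
  obtain ⟨g, hg⟩ : ∃ g : ε ⊕ τ → (τ ⊕ Ci G) ⊕ (ε ⊕ (ι × σ)), g = fun o => match o with
    | Sum.inl l => Sum.inr (Sum.inl l)
    | Sum.inr l => Sum.inl (Sum.inl l) := ⟨_, rfl⟩
  have hgi : Function.Injective g := by
    rw [hg]
    rintro (l | l) (l' | l') hh <;> simp at hh <;> simp [hh]
  have hval : ∀ (s : τ ⊕ Ci G → ℂ) (P : MvPolynomial (ε ⊕ τ) ℤ),
      MvPolynomial.aeval (Sum.elim s (Sum.elim η θ))
      (MvPolynomial.rename g P) = vl (Sum.elim η fun l => s (Sum.inl l)) P := by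
    intro s P
    rw [MvPolynomial.aeval_rename, vl]
    congr 2
    funext o
    rw [hg]
    rcases o with l | l <;> rfl
  have ety : (fun l => t (Sum.inl l)) = y := by
    funext l
    rw [ht]; rfl
  have hry : rk (Set.range (Sum.elim η y')) ≤ nr := by
    refine hsemi (Sum.elim η y') (fun o => ?_) fun P hPd hPL hP0 => ?_
    · rcases o with l | l
      · simp only [Sum.elim_inl, sub_self, norm_zero]
        exact hδr.le
      · have h1 := htc (Sum.inl l)
        rw [pow_one, ht, Sum.elim_inl] at h1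
        rw [Sum.elim_inr, Sum.elim_inr, hy']
        have h2 : 1 / δr ≤ K * H := by
          refine le_trans ?_ hKH
          rw [hK]; linarith
        rw [div_le_iff₀ hδr] at h2
        by_contra h3
        push Not at h3
        have hKH0 : 0 < K * H := by linarith
        have h4 : K * H * δr < K * H * ‖t' (Sum.inl l) - y l‖ :=
          mul_lt_mul_of_pos_left h3 hKH0
        linarith
    · have h1 := (htr (MvPolynomial.rename g P) (by
        refine (MvPolynomial.totalDegree_rename_le _ _).trans (hPd.trans ?_)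
        rw [hD]; omega) (fun m => by
        refine H596.Q.ren_coeff _ hgi P (K * H) (by linarith) (fun m' => ?_) m
        refine (hPL m').trans ((le_abs_self Lr).trans (le_trans ?_ hKH))
        rw [hK]; linarith)).2
      rw [hval, hval, ety, ← hy', hP0, norm_zero, zero_mul] at h1
      exact h1 zero_le_one
  obtain ⟨ny, hny⟩ := rk_fin (Sum.elim η y')
  have hnylow : Fintype.card ε ≤ ny := by
    have h1 : rk (Set.range η) ≤ rk (Set.range (Sum.elim η y')) := by
      refine rk_mono ?_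
      rintro _ ⟨l, rfl⟩
      exact ⟨Sum.inl l, rfl⟩
    rw [rk_of_ind η hindη, hny] at h1
    exact_mod_cast h1
  have hnyup : ny ≤ Fintype.card ε + r₀ := by
    have h1 := hry
    rw [hny] at h1
    rw [hnr] at hy
    exact_mod_cast h1.trans hy
  refine ⟨v, p, y', ny - Fintype.card ε, ?_, ?_, ?_, by omega, hp, ?_⟩
  rotate_left
  · intro P hP hsm
    have h1 := (htr (MvPolynomial.rename g P) (by
      refine (MvPolynomial.totalDegree_rename_le _ _).trans
        ((totalDegree_le_of P d hP.1).trans ?_)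
      rw [hD]; omega) (fun m => by
      refine H596.Q.ren_coeff _ hgi P (K * H) (by linarith) (fun m' => ?_) m
      exact (hP.2 m').trans (le_mul_of_one_le_left hH0 (by linarith)))).2
    rw [hval, hval, ety, ← hy'] at h1
    refine h1 ?_
    rw [mul_pow]
    have h4 : H * (‖vl (Sum.elim η y) P‖ * (K ^ k * H ^ k)) ≤ H * 1 := by
      calc H * (‖vl (Sum.elim η y) P‖ * (K ^ k * H ^ k)) =
            K ^ k * (H ^ (k + 1) * ‖vl (Sum.elim η y) P‖) := by rw [pow_succ]; ring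
        _ ≤ K ^ k * 1 := mul_le_mul_of_nonneg_left hsm (by linarith)
        _ ≤ H * 1 := by linarith
    exact le_of_mul_le_mul_left h4 (by linarith)
  · rw [hny, Nat.add_sub_cancel' hnylow]
  rotate_left
  · intro i P hP hsm
    have hBdP := hBj i P H hH0 hP
    have h1 : (MvPolynomial.aeval (bF (ε := ε) G i) P).totalDegree ≤ D := by
      refine (totalDegree_le_of _ _ hBdP.1).trans ?_
      have h2 : Fintype.card ((τ ⊕ Ci G) ⊕ (ε ⊕ (ι × σ))) * dj i ≤
          ∑ i, Fintype.card ((τ ⊕ Ci G) ⊕ (ε ⊕ (ι × σ))) * dj i :=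
        Finset.single_le_sum (f := fun i => Fintype.card ((τ ⊕ Ci G) ⊕ (ε ⊕ (ι × σ))) * dj i)
          (fun _ _ => Nat.zero_le _) (Finset.mem_univ i)
      rw [hD]; omega
    have h2 : ∀ m, |(((MvPolynomial.aeval (bF (ε := ε) G i) P).coeff m : ℤ) : ℝ)| ≤ K * H := by
      intro m
      refine (hBdP.2 m).trans (mul_le_mul_of_nonneg_right ?_ hH0)
      have h3 : Bj i ≤ ∑ i, Bj i := Finset.single_le_sum (f := Bj)
        (fun i _ => by linarith [hBj1 i]) (Finset.mem_univ i)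
      rw [hK]; linarith
    have h3 := (htr _ h1 h2).2
    have e1 := bF_val G i t η θ P
    have e2 := bF_val G i t' η θ P
    rw [vl] at e1 e2
    rw [e1, e2] at h3
    rw [hv]
    refine h3 ?_
    have e3 : (fun w => vl t (cp G (i, w)) - θ (i, w)) = bv G y θ i := by
      funext w
      rw [ht, cp_val]
      rfl
    rw [e3, mul_pow]
    have h4 : H * (‖vl (Sum.elim η (bv G y θ i)) P‖ * (K ^ k * H ^ k)) ≤ H * 1 := by
      calc H * (‖vl (Sum.elim η (bv G y θ i)) P‖ * (K ^ k * H ^ k)) =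
            K ^ k * (H ^ (k + 1) * ‖vl (Sum.elim η (bv G y θ i)) P‖) := by rw [pow_succ]; ring
        _ ≤ K ^ k * 1 := mul_le_mul_of_nonneg_left hsm (by linarith)
        _ ≤ H * 1 := by linarith
    exact le_of_mul_le_mul_left h4 (by linarith)
  · intro S
    -- the coefficients stay algebraic
    have halg : ∀ p, IsAlgebraic ℚ (t' (Sum.inr p)) := by
      intro p
      have h1 : (Q p).totalDegree ≤ D := by
        have h2 : (Q p).totalDegree ≤ ∑ p, (Q p).totalDegree :=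
          Finset.single_le_sum (f := fun p => (Q p).totalDegree)
            (fun _ _ => Nat.zero_le _) (Finset.mem_univ p)
        rw [hD]; omega
      have h2 : ∀ m, |(((Q p).coeff m : ℤ) : ℝ)| ≤ K * H := by
        intro m
        refine (lenM_coeff _ m).trans (le_trans ?_ hKH)
        have h3 : lenM (Q p) ≤ ∑ p, lenM (Q p) :=
          Finset.single_le_sum (f := fun p => lenM (Q p)) (fun _ _ => lenM_nonneg _)
            (Finset.mem_univ p)
        rw [hK]; linarith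
      have h3 := (htr _ h1 h2).2
      have e1 : ∀ s : τ ⊕ Ci G → ℂ, MvPolynomial.aeval (Sum.elim s (Sum.elim η θ)) (Q p) =
          Polynomial.aeval (s (Sum.inr p)) (q p) := by
        intro s
        rw [hQ, ← Polynomial.aeval_algHom_apply, MvPolynomial.aeval_X]
        rfl
      rw [e1, e1, ht, Sum.elim_inr, hq p, norm_zero, zero_mul] at h3
      have h4 := h3 zero_le_one
      have h5 : IsAlgebraic ℤ (t' (Sum.inr p)) := ⟨q p, hq0 _, h4⟩
      exact h5.extendScalars (RingHom.injective_int (algebraMap ℤ ℚ))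
    obtain ⟨a', ha'⟩ : ∃ a' : Ci G → ℂ, a' = fun p => t' (Sum.inr p) := ⟨_, rfl⟩
    have ht' : t' = Sum.elim y' a' := by
      funext i
      rw [hy', ha']
      rcases i with i | p <;> rfl
    obtain ⟨E, hE⟩ : ∃ E : Set ℂ, E = Set.range η := ⟨_, rfl⟩
    have heE : rk E = (Fintype.card ε : ℕ) := by rw [hE]; exact rk_of_ind η hindη
    have hpE : ∀ i, rk (E ∪ Set.range (v i)) = p i := by
      intro i
      rw [hE, ← Set.Sum.elim_range]
      exact hp i
    obtain ⟨n, hn, hle⟩ := rk_blocks E (fun i => Set.range (v i)) _ heE p hpE S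
    -- the lower bound
    obtain ⟨x, hx⟩ : ∃ x : ε ⊕ (S × σ) → ℂ, x = Sum.elim η fun q => θ (q.1, q.2) := ⟨_, rfl⟩
    have hxi : AlgebraicIndependent ℚ x := by
      have h1 := hind.comp (Sum.map id (fun q : S × σ => ((q.1 : ι), q.2))) (by
        refine Function.Injective.sumMap Function.injective_id ?_
        rintro ⟨i, w⟩ ⟨j, w'⟩ hh
        have e1 : (i : ι) = j := congrArg Prod.fst hh
        have e2 : w = w' := congrArg Prod.snd hh
        rw [Subtype.ext e1, e2])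
      have h2 : (Sum.elim η θ) ∘ (Sum.map id (fun q : S × σ => ((q.1 : ι), q.2))) = x := by
        rw [hx]
        funext o
        rcases o with l | q <;> rfl
      rw [h2] at h1
      exact h1
    have hxr := rk_of_ind x hxi
    have hsub : Set.range x ⊆ cls (Set.range y' ∪ Set.range a' ∪
        (E ∪ ⋃ i ∈ S, Set.range (v i))) := by
      rintro _ ⟨o, rfl⟩
      rcases o with l | ⟨i, w⟩
      · refine mem_cls (Or.inr (Or.inl ?_))
        rw [hE, hx]
        exact ⟨l, rfl⟩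
      · have m1 : ∀ o, (Sum.elim y' a') o ∈ cls (Set.range y' ∪ Set.range a' ∪
            (E ∪ ⋃ i ∈ S, Set.range (v i))) := by
          rintro (o | o)
          · exact mem_cls (Or.inl (Or.inl ⟨o, rfl⟩))
          · exact mem_cls (Or.inl (Or.inr ⟨o, rfl⟩))
        have m2 := cls_vl _ m1 (cp G ((i : ι), w))
        rw [← ht'] at m2
        have m3 : v i w ∈ cls (Set.range y' ∪ Set.range a' ∪
            (E ∪ ⋃ i ∈ S, Set.range (v i))) :=
          mem_cls (Or.inr (Or.inr (Set.mem_iUnion₂.2 ⟨i, i.2, ⟨w, rfl⟩⟩)))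
        have e : x (Sum.inr (i, w)) = vl t' (cp G ((i : ι), w)) + -v i w := by
          rw [hx, hv]
          simp
        rw [e]
        exact cls_add m2 (cls_neg m3)
    have h3 := rk_mono hsub
    rw [rk_cls, hxr] at h3
    have h4 := h3.trans (rk_alg y' a' (fun p => by rw [ha']; exact halg p) _)
    have h5 := (AlgebraicIndependent.matroid ℚ ℂ).eRk_inter_add_eRk_union_le
      (E ∪ Set.range y') (E ∪ ⋃ i ∈ S, Set.range (v i))
    have h5a : rk E ≤ rk ((E ∪ Set.range y') ∩ (E ∪ ⋃ i ∈ S, Set.range (v i))) :=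
      rk_mono fun z hz => ⟨Or.inl hz, Or.inl hz⟩
    have h5b : rk (Set.range y' ∪ (E ∪ ⋃ i ∈ S, Set.range (v i))) ≤
        rk ((E ∪ Set.range y') ∪ (E ∪ ⋃ i ∈ S, Set.range (v i))) := by
      refine rk_mono ?_
      rintro z (hz | hz)
      · exact Or.inl (Or.inr hz)
      · exact Or.inr hz
    have h5c : rk E + rk (Set.range x) ≤ rk (E ∪ Set.range y') +
        rk (E ∪ ⋃ i ∈ S, Set.range (v i)) := by
      rw [hxr]
      exact (add_le_add h5a (h4.trans h5b)).trans h5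
    have h5d : rk (E ∪ Set.range y') = (ny : ℕ∞) := by
      rw [hE, ← Set.Sum.elim_range]
      exact hny
    have h6 := h5c
    rw [h5d, heE, hxr, hn] at h6
    have h7 : Fintype.card ε + Fintype.card (ε ⊕ (S × σ)) ≤ ny + n := by
      exact_mod_cast h6
    rw [Fintype.card_sum, Fintype.card_prod, Fintype.card_coe] at h7
    have h8 : S.card * (Fintype.card ε + Fintype.card σ) =
        S.card * Fintype.card ε + S.card * Fintype.card σ := mul_add _ _ _
    rw [h8]
    omega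

end Pool.Agent.H488.L
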