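import Pool.Agent.H488.L.Jb

/-!
# The joint measures with the row `y`
-/

set_option autoImplicit false
set_option linter.unusedSectionVars false

namespace Pool.Agent.H488.L

open Pool.Agent.H488.M (vl Bd Meas)
open Pool.Agent.H488.R (rk rk_fin rk_range_le)

variable {σ ε ι : Type} [Fintype σ] [Fintype ε] [Fintype ι]

/-- the rows and the row `y` itself -/
noncomputable def bz (G : ι × σ → MvPolynomial σ ℂ) (y : σ → ℂ) (θ : ι × σ → ℂ) (o : Option ι) :
    σ → ℂ := o.elim y (bv G y θ)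

/-- complex numbers, with the row `y` -/
theorem jb_zero (η : ε → ℂ) (θ : ι × σ → ℂ) (h : Meas (Sum.elim η θ))
    (G : ι × σ → MvPolynomial σ ℂ) (hG : ∀ w m, IsAlgebraic ℚ ((G w).coeff m)) (d : ℕ)
    (y : σ → ℂ) :
    ∃ k : ℕ, ∃ h₁ : ℝ, 1 ≤ h₁ ∧ JB (Fintype.card σ) η (bz G y θ) d k h₁ := by
  classical
  obtain ⟨k, h₁, hh₁, hk⟩ := blockLaw η θ h G hG d y (Fintype.card σ) (by
    have h1 := rk_range_le (Sum.elim η y)
    rwa [Fintype.card_sum] at h1)
  have h0 : ∀ (v : ι → σ → ℂ) (p : ι → ℕ) (y' : σ → ℂ) (r' : ℕ) (H : ℝ),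
      (∀ i, ∀ P : MvPolynomial (ε ⊕ σ) ℤ, Bd d H P →
        H ^ k * ‖vl (Sum.elim η (bv G y θ i)) P‖ ≤ 1 → vl (Sum.elim η (v i)) P = 0) →
      (∀ P : MvPolynomial (ε ⊕ σ) ℤ, Bd d H P →
        H ^ k * ‖vl (Sum.elim η y) P‖ ≤ 1 → vl (Sum.elim η y') P = 0) →
      rk (Set.range (Sum.elim η y')) = ((Fintype.card ε + r' : ℕ) : ℕ∞) →
      (∀ i, rk (Set.range (Sum.elim η (v i))) = p i) →
      (∀ S : Finset ι, S.card * (Fintype.card ε + Fintype.card σ) ≤ r' + ∑ i ∈ S, p i) →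
      ∀ S : Finset (Option ι), ∀ P : Option ι → MvPolynomial (ε ⊕ σ) ℤ,
      (∀ o ∈ S, (P o ≠ 0 ∧ Bd d H (P o)) ∧ H ^ k * ‖vl (Sum.elim η (bz G y θ o)) (P o)‖ ≤ 1) →
      S.eraseNone.card ≤ r' ∧ (none ∈ S → r' + 1 ≤ Fintype.card σ) ∧
      (∀ Q : MvPolynomial (ε ⊕ σ) ℤ, Bd d H Q → none ∈ S →
        H ^ k * ‖vl (Sum.elim η (bz G y θ none)) Q‖ ≤ 1 → IsRelPrime (P none) Q →
          r' + 2 ≤ Fintype.card σ) ∧
      ∀ Q : MvPolynomial (ε ⊕ σ) ℤ, Bd d H Q → ∀ i, some i ∈ S →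
        H ^ k * ‖vl (Sum.elim η (bz G y θ (some i))) Q‖ ≤ 1 → IsRelPrime (P (some i)) Q →
          S.eraseNone.card + 1 ≤ r' := by
    intro v p y' r' H hv hy' hr' hp hle S P hP
    have h1 : ∀ i ∈ S.eraseNone, p i + 1 ≤ Fintype.card ε + Fintype.card σ := fun i hi => by
      have h2 := hP _ (Finset.mem_eraseNone.1 hi)
      have := rk_one (Sum.elim η (v i)) (P (some i)) h2.1.1 (hv i _ h2.1.2 h2.2) _ (hp i)
      rwa [Fintype.card_sum] at this
    refine ⟨?_, fun hn => ?_, fun Q hQ hn hs hrel => ?_, fun Q hQ i hi hs hrel => ?_⟩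
    · have h2 := Finset.sum_le_card_nsmul _ (fun i => p i + 1) _ h1
      rw [Finset.sum_add_distrib, Finset.sum_const, smul_eq_mul, smul_eq_mul, mul_one] at h2
      have h3 := hle S.eraseNone
      omega
    · have h2 := hP _ hn
      have := rk_one (Sum.elim η y') (P none) h2.1.1 (hy' _ h2.1.2 h2.2) _ hr'
      rw [Fintype.card_sum] at this
      omega
    · have h2 := hP _ hn
      have := rk_two (Sum.elim η y') (P none) Q hrel h2.1.1 (hy' _ h2.1.2 h2.2)
        (hy' _ hQ hs) _ hr'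
      rw [Fintype.card_sum] at this
      omega
    · have hi' := Finset.mem_eraseNone.2 hi
      have h2 := Finset.sum_le_card_nsmul (S.eraseNone.erase i) (fun i => p i + 1) _
        fun j hj => h1 j (Finset.mem_of_mem_erase hj)
      rw [Finset.sum_add_distrib, Finset.sum_const, smul_eq_mul, smul_eq_mul, mul_one] at h2
      have h4 := hP _ hi
      have h5 := rk_two (Sum.elim η (v i)) (P (some i)) Q hrel h4.1.1
        (hv i _ h4.1.2 h4.2) (hv i Q hQ hs) _ (hp i)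
      rw [Fintype.card_sum] at h5
      have h3 := hle S.eraseNone
      have h6 := Finset.add_sum_erase S.eraseNone p hi'
      have h7 := Finset.card_erase_add_one hi'
      rw [← h7, add_mul, one_mul] at h3
      omega
  have hc : ∀ S : Finset (Option ι), (none ∈ S → S.card = S.eraseNone.card + 1) ∧
      (none ∉ S → S.card = S.eraseNone.card) := by
    intro S
    refine ⟨fun hn => ?_, fun hn => (Finset.card_eraseNone_of_not_mem hn).symm⟩
    have h1 := Finset.card_eraseNone_of_mem hn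
    have h2 : 0 < S.card := Finset.card_pos.2 ⟨_, hn⟩
    omega
  refine ⟨k, h₁, hh₁, fun H hH S hS P hP => ?_, fun H hH S hS P hP i₀ hi₀ Q hQ hPQ => ?_⟩
  · by_contra hcon
    push Not at hcon
    obtain ⟨v, p, y', r', hv, hy', hr', hr2, hp, hle⟩ := hk H hH
    obtain ⟨a1, a2, -, -⟩ := h0 v p y' r' H hv hy' hr' hp hle S P fun o ho => ⟨hP o ho, hcon o ho⟩
    by_cases hn : none ∈ S
    · have := (hc S).1 hn
      have := a2 hn
      omega
    · have := (hc S).2 hn
      omega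
  · by_contra hcon
    push Not at hcon
    obtain ⟨hcon, hcon2⟩ := hcon
    obtain ⟨v, p, y', r', hv, hy', hr', hr2, hp, hle⟩ := hk H hH
    obtain ⟨a1, a2, a3, a4⟩ := h0 v p y' r' H hv hy' hr' hp hle S P fun o ho => ⟨hP o ho, hcon o ho⟩
    rcases i₀ with _ | i
    · have b1 := a3 Q hQ hi₀ hcon2 hPQ
      have b2 := (hc S).1 hi₀
      omega
    · have b1 := a4 Q hQ i hi₀ hcon2 hPQ
      by_cases hn : none ∈ S
      · have := (hc S).1 hn
        have := a2 hn
        omega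
      · have := (hc S).2 hn
        omega

end Pool.Agent.H488.L
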