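import Pool.Agent.H488.L.Mz
import Pool.Agent.H488.L.Jz

/-!
# Measures for the damped multiple zeta values and their conjugates
-/

set_option autoImplicit false
set_option linter.unusedSectionVars false

namespace Pool.Agent.H488.L

open Pool.Agent.H488.M (vl Bd Meas)
open Pool.Agent.H488.R (rk rk_fin rk_range_le rk_mono rk_cls cls mem_cls)
open Pool.Agent.N902.EW
open Pool.Agent.N778

variable {κ ε : Type} [Fintype κ] [Fintype ε]

lemma conj_int (f : ℝ → ℂ) (a b : ℝ) : (starRingEnd ℂ) (∫ s in a..b, f s) =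
    ∫ s in a..b, (starRingEnd ℂ) (f s) := by
  rw [intervalIntegral, intervalIntegral, map_sub, ← integral_conj, ← integral_conj]

lemma II_conj (w : List ℂ) : ∀ t : ℝ, II (w.map (starRingEnd ℂ)) t = (starRingEnd ℂ) (II w t) := by
  induction w with
  | nil => intro t; show (1 : ℂ) = (starRingEnd ℂ) 1; rw [map_one]
  | cons a v ih =>
    intro t
    rw [List.map_cons, II, II, conj_int]
    refine intervalIntegral.integral_congr fun s _ => ?_
    show (if (starRingEnd ℂ) a = 0 then 1 else Complex.exp ((starRingEnd ℂ) a * s) - 1) *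
      II (v.map (starRingEnd ℂ)) s / s = (starRingEnd ℂ) ((if a = 0 then 1 else
        Complex.exp (a * s) - 1) * II v s / s)
    rw [ih, map_div₀, map_mul, Complex.conj_ofReal]
    congr 2
    by_cases ha : a = 0
    · rw [if_pos ha, if_pos (by rw [ha, map_zero]), map_one]
    · rw [if_neg ha, if_neg (by rwa [map_eq_zero]), map_sub, map_one, ← Complex.exp_conj, map_mul,
        Complex.conj_ofReal]

lemma conj_Gr {z : ℂ} (hz : z ∈ Gr) : (starRingEnd ℂ) z ∈ Gr := by
  rcases hz with (hz | ⟨b, hb, rfl⟩) | ⟨w, hw, hno, rfl⟩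
  · exact Or.inl (Or.inl (H596.Q.conj_alg _ hz))
  · exact Or.inl (Or.inr ⟨(starRingEnd ℂ) b, H596.Q.conj_alg _ hb, (Complex.exp_conj _).symm⟩)
  · refine Or.inr ⟨w.map (starRingEnd ℂ), ⟨?_, ?_⟩, ?_, (II_conj w 1).symm⟩
    · intro a ha
      obtain ⟨b, hb, rfl⟩ := List.mem_map.1 ha
      exact H596.Q.conj_alg _ (hw.1 b hb)
    · intro h
      rw [List.getLast_map]
      rw [ne_eq, map_eq_zero]
      exact hw.2 _
    · intro a ha ha0 hna
      obtain ⟨b, hb, rfl⟩ := List.mem_map.1 ha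
      obtain ⟨c, hc, hcb⟩ := List.mem_map.1 hna
      rw [← map_neg] at hcb
      have := (starRingEnd ℂ).injective hcb
      rw [this] at hc
      exact hno b hb (fun h => ha0 (by rw [h, map_zero])) hc

lemma conj_adj {z : ℂ} (hz : z ∈ Algebra.adjoin ℚ Gr) : (starRingEnd ℂ) z ∈ Algebra.adjoin ℚ Gr := by
  induction hz using Algebra.adjoin_induction with
  | mem x hx => exact Algebra.subset_adjoin (conj_Gr hx)
  | algebraMap r =>
    have : (starRingEnd ℂ) (algebraMap ℚ ℂ r) = algebraMap ℚ ℂ r := by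
      rw [eq_ratCast, map_ratCast]
    rw [this]
    exact Subalgebra.algebraMap_mem _ _
  | add x y _ _ hx hy => rw [map_add]; exact Subalgebra.add_mem _ hx hy
  | mul x y _ _ hx hy => rw [map_mul]; exact Subalgebra.mul_mem _ hx hy

/-- **The measure with the conjugates.** -/
theorem meas_SC (η : ε → ℂ) (hη : ∀ l, η l ∈ Algebra.adjoin ℚ Gr)
    (hηi : AlgebraicIndependent ℚ (Sum.elim η fun l => (starRingEnd ℂ) (η l)))
    (w : κ → List ℕ) (x : κ → ℂ) (hw : ∀ i, MZ.GW (w i)) (hx : ∀ i, IsAlgebraic ℚ (x i))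
    (hx2 : ∀ i j, x i + x j ≠ 0) (hx3 : ∀ i j, x i + (starRingEnd ℂ) (x j) ≠ 0)
    (hinj : Function.Injective fun i => (w i, x i))
    (hinj2 : ∀ i j, w i = w j → x i ≠ (starRingEnd ℂ) (x j)) :
    Meas (Sum.elim (Sum.elim η fun i => MZ.S (w i) (x i)) fun o => (starRingEnd ℂ)
      (Sum.elim η (fun i => MZ.S (w i) (x i)) o)) := by
  have h1 := meas_S (Sum.elim η fun l => (starRingEnd ℂ) (η l)) (by
    rintro (l | l)
    · exact hη l
    · exact conj_adj (hη l)) hηi (Sum.elim w w) (Sum.elim x fun i => (starRingEnd ℂ) (x i)) (by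
    rintro (i | i) <;> exact hw i) (by
    rintro (i | i)
    · exact hx i
    · exact H596.Q.conj_alg _ (hx i)) (by
    rintro (i | i) (j | j)
    · exact hx2 i j
    · exact hx3 i j
    · show (starRingEnd ℂ) (x i) + x j ≠ 0
      rw [add_comm]
      exact hx3 j i
    · show (starRingEnd ℂ) (x i) + (starRingEnd ℂ) (x j) ≠ 0
      rw [← map_add, ne_eq, map_eq_zero]
      exact hx2 i j) (by
    rintro (i | i) (j | j) hij
    · exact congrArg Sum.inl (hinj hij)
    · exact absurd (congrArg Prod.snd hij) (hinj2 i j (congrArg Prod.fst hij))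
    · exact absurd (congrArg Prod.snd hij).symm (hinj2 j i (congrArg Prod.fst hij).symm)
    · refine congrArg Sum.inr (hinj ?_)
      have e1 : w i = w j := congrArg Prod.fst hij
      have e2 : (starRingEnd ℂ) (x i) = (starRingEnd ℂ) (x j) := congrArg Prod.snd hij
      show (w i, x i) = (w j, x j)
      rw [e1, (starRingEnd ℂ).injective e2])
  have h2 := h1.comp (fun o : (ε ⊕ κ) ⊕ (ε ⊕ κ) => match o with
    | Sum.inl (Sum.inl l) => Sum.inl (Sum.inl l)
    | Sum.inl (Sum.inr i) => Sum.inr (Sum.inl i)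
    | Sum.inr (Sum.inl l) => Sum.inl (Sum.inr l)
    | Sum.inr (Sum.inr i) => Sum.inr (Sum.inr i)) (by
    rintro ((l | i) | (l | i)) ((l' | i') | (l' | i')) hh <;> simp at hh <;> simp [hh])
  have h3 : (fun o => Sum.elim (Sum.elim η fun l => (starRingEnd ℂ) (η l))
      (fun i => MZ.S (Sum.elim w w i) (Sum.elim x (fun i => (starRingEnd ℂ) (x i)) i))
      ((fun o : (ε ⊕ κ) ⊕ (ε ⊕ κ) => match o with
    | Sum.inl (Sum.inl l) => Sum.inl (Sum.inl l)
    | Sum.inl (Sum.inr i) => Sum.inr (Sum.inl i)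
    | Sum.inr (Sum.inl l) => Sum.inl (Sum.inr l)
    | Sum.inr (Sum.inr i) => Sum.inr (Sum.inr i)) o)) =
      (Sum.elim (Sum.elim η fun i => MZ.S (w i) (x i)) fun o => (starRingEnd ℂ)
      (Sum.elim η (fun i => MZ.S (w i) (x i)) o)) := by
    funext o
    rcases o with (l | i) | (l | i)
    · rfl
    · rfl
    · rfl
    · show MZ.S (w i) ((starRingEnd ℂ) (x i)) = (starRingEnd ℂ) (MZ.S (w i) (x i))
      exact S_conj _ _
  rw [h3] at h2
  exact h2

/-- the transcendence degree of numbers which are algebraic over a field -/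
lemma rk_adj {ρ τ : Type} [Fintype ρ] {s : ℕ} (η : ρ → ℂ) (z : τ → ℂ) (y : Fin s → ℂ)
    (h : ∀ i, IsAlgebraic (IntermediateField.adjoin ℚ (Set.range (Sum.elim η y))) (z i)) :
    rk (Set.range (Sum.elim η z)) ≤ ((Fintype.card ρ + s : ℕ) : ℕ∞) := by
  have h1 : Set.range (Sum.elim η z) ⊆ cls (Set.range (Sum.elim η y)) := by
    rintro _ ⟨o, rfl⟩
    rcases o with l | i
    · exact mem_cls ⟨Sum.inl l, rfl⟩
    · exact IntermediateField.isAlgebraic_adjoin_iff.1 (h i)
  have h2 := rk_mono h1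
  rw [rk_cls] at h2
  refine h2.trans ((rk_range_le _).trans ?_)
  rw [Fintype.card_sum, Fintype.card_fin]

end Pool.Agent.H488.L
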