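import Pool.Agent.H488.L.Blk
import Pool.Agent.H488.M.Sc

/-!
# The dichotomy of scales for near relations in blocks
-/

set_option autoImplicit false
set_option linter.unusedSectionVars false

namespace Pool.Agent.H488.L

open Pool.Agent.H488.M (vl Bd Meas pt nf small_factor vl_mul vl_assoc)
open Pool.Agent.H488.R (rk)

variable {σ ε ι : Type} [Fintype σ] [Fintype ε] [Fintype ι]

/-- the indices of the blocks with a near relation at the scale `H` -/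
def NB (η : ε → ℂ) (v : ι → σ → ℂ) (d w : ℕ) (H : ℝ) : Set ι :=
  {i | ∃ P : MvPolynomial (ε ⊕ σ) ℤ, P ≠ 0 ∧ Bd d H P ∧ ‖vl (Sum.elim η (v i)) P‖ ≤ 1 / H ^ w}

/-- the block satisfies a relation of degree at most `d` in each variable -/
def AB (η : ε → ℂ) (d : ℕ) (v : σ → ℂ) : Prop :=
  ∃ P : MvPolynomial (ε ⊕ σ) ℤ, P ≠ 0 ∧ (∀ o, P.degreeOf o ≤ d) ∧ vl (Sum.elim η v) P = 0

/-- the joint measures -/
def JB (s : ℕ) (η : ε → ℂ) (v : ι → σ → ℂ) (d k₁ : ℕ) (h₁ : ℝ) : Prop :=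
  (∀ H : ℝ, h₁ ≤ H → ∀ S : Finset ι, S.card = s + 1 → ∀ P : ι → MvPolynomial (ε ⊕ σ) ℤ,
    (∀ i ∈ S, P i ≠ 0 ∧ Bd d H (P i)) → ∃ i ∈ S, 1 < H ^ k₁ * ‖vl (Sum.elim η (v i)) (P i)‖) ∧
  ∀ H : ℝ, h₁ ≤ H → ∀ S : Finset ι, S.card = s → ∀ P : ι → MvPolynomial (ε ⊕ σ) ℤ,
    (∀ i ∈ S, P i ≠ 0 ∧ Bd d H (P i)) → ∀ i₀ ∈ S, ∀ Q : MvPolynomial (ε ⊕ σ) ℤ, Bd d H Q →
    IsRelPrime (P i₀) Q → (∃ i ∈ S, 1 < H ^ k₁ * ‖vl (Sum.elim η (v i)) (P i)‖) ∨
      1 < H ^ k₁ * ‖vl (Sum.elim η (v i₀)) Q‖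

/-- **The dichotomy of scales.** -/
theorem dichB (s : ℕ) (η : ε → ℂ) (d A k₁ : ℕ) : ∃ w : ℕ, ∀ v : ι → σ → ℂ, ∀ h₁ : ℝ,
      1 ≤ h₁ → JB s η v d k₁ h₁ → ∃ H₀ : ℝ, 1 ≤ H₀ ∧ ∀ H : ℝ, H₀ ≤ H →
      (NB η v d w H).ncard ≤ s ∧
      ((NB η v d w H).ncard = s →
        ((∀ i ∈ NB η v d w H, AB η d (v i)) ∧
          ∀ Y : ℝ, H ≤ Y → NB η v d w Y ⊆ NB η v d w H) ∨
        ∃ Z : ℝ, H ≤ Z ∧
          (∀ Y : ℝ, H ≤ Y → Y ≤ Z →
            NB η v d w Y ⊆ NB η v d w H) ∧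
          ∀ Y : ℝ, Z < Y → Y ≤ Z ^ A →
            (NB η v d w Y).ncard < s) := by
  classical
  obtain ⟨B, hB, hfac⟩ := small_factor (ε ⊕ σ) d
  obtain ⟨F, hF⟩ : ∃ F : ℕ, F = nf (ε ⊕ σ) d := ⟨_, rfl⟩
  obtain ⟨W, hW⟩ : ∃ W : ℕ, W = A * k₁ + k₁ + 1 := ⟨_, rfl⟩
  refine ⟨W * F + 1, fun v h₁ hh₁ hj => ?_⟩
  obtain ⟨hj, hj2⟩ := hj
  obtain ⟨H₀, hH₀⟩ : ∃ H₀ : ℝ, H₀ = 2 + h₁ + B ^ k₁ := ⟨_, rfl⟩
  have hq1 : 0 < B ^ k₁ := by positivity
  obtain ⟨N, hN⟩ : ∃ N : ℝ → Set ι, N = fun H => NB η v d (W * F + 1) H := ⟨_, rfl⟩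
  have hN' : ∀ H, NB η v d (W * F + 1) H = N H := fun H => by rw [hN]
  -- small factors
  have key : ∀ (Y : ℝ), H₀ ≤ Y → ∀ i ∈ N Y, ∃ P : MvPolynomial (ε ⊕ σ) ℤ, P ≠ 0 ∧ Bd d Y P ∧
      ∃ p, Irreducible p ∧ p ∣ P ∧ Bd d (B * Y) p ∧
        ‖vl (Sum.elim η (v i)) p‖ < 1 / Y ^ W := by
    intro Y hY i hi
    rw [hN] at hi
    obtain ⟨P, hP, hPB, hs⟩ := hi
    have hY1 : 1 < Y := by linarith
    have hY0 : 0 < Y := by linarith
    refine ⟨P, hP, hPB, ?_⟩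
    refine hfac _ P hP Y hY0.le hPB (1 / Y ^ W) (by positivity)
      (by rw [div_le_one (by positivity)]; exact one_le_pow₀ hY1.le) ?_
    rw [← hF]
    calc ‖vl (Sum.elim η (v i)) P‖ ≤ 1 / Y ^ (W * F + 1) := hs
      _ < 1 / Y ^ (W * F) := by
          refine one_div_lt_one_div_of_lt (by positivity) ?_
          rw [pow_succ]
          exact lt_mul_of_one_lt_right (by positivity) hY1
      _ = (1 / Y ^ W) ^ F := by rw [div_pow, one_pow, ← pow_mul]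
  have small : ∀ (Y : ℝ), H₀ ≤ Y → ∀ x : ℝ, 0 ≤ x → x ≤ 1 / Y ^ W → (B * Y) ^ k₁ * x ≤ 1 := by
    intro Y hY x hx0 hx
    have hY1 : 1 ≤ Y := by linarith
    calc (B * Y) ^ k₁ * x ≤ (B * Y) ^ k₁ * (1 / Y ^ W) :=
          mul_le_mul_of_nonneg_left hx (by positivity)
      _ ≤ (B * Y) ^ k₁ * (1 / Y ^ (k₁ + 1)) := by
          refine mul_le_mul_of_nonneg_left ?_ (by positivity)
          exact one_div_le_one_div_of_le (by positivity) (pow_le_pow_right₀ hY1 (by omega))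
      _ = B ^ k₁ / Y := by rw [mul_pow, pow_succ]; field_simp
      _ ≤ 1 := by rw [div_le_one (by linarith)]; linarith
  -- an extension of `N H` by one element is impossible
  have ext : ∀ (Y : ℝ), H₀ ≤ Y → ∀ S : Finset ι, S.card = s →
      ∀ p : ι → MvPolynomial (ε ⊕ σ) ℤ, (∀ i ∈ S, p i ≠ 0 ∧ Bd d (B * Y) (p i) ∧
        (B * Y) ^ k₁ * ‖vl (Sum.elim η (v i)) (p i)‖ ≤ 1) → N Y ⊆ S := by
    intro Y hY S hS p hp j hjY
    have hY1 : 1 ≤ Y := by linarith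
    by_contra hjS
    obtain ⟨P, hP, hPB, q, hq, -, hqB, hqs⟩ := key Y hY j hjY
    have hjS' : j ∉ S := hjS
    obtain ⟨i, hi, hlt⟩ := hj (B * Y) (by
        have : Y ≤ B * Y := le_mul_of_one_le_left (by linarith) hB
        linarith) (insert j S) (by rw [Finset.card_insert_of_notMem hjS', hS])
      (fun i => if i = j then q else p i) (fun i hi => by
        by_cases hij : i = j
        · simp only [hij, if_true]
          exact ⟨hq.ne_zero, hqB⟩
        · simp only [hij, if_false]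
          have := hp i (Finset.mem_of_mem_insert_of_ne hi hij)
          exact ⟨this.1, this.2.1⟩)
    by_cases hij : i = j
    · rw [hij] at hlt
      simp only [if_true] at hlt
      have h1 := small Y hY _ (norm_nonneg _) hqs.le
      linarith
    · simp only [hij, if_false] at hlt
      have := (hp i (Finset.mem_of_mem_insert_of_ne hi hij)).2.2
      linarith
  -- the first assertion
  have first : ∀ (Y : ℝ), H₀ ≤ Y → (N Y).ncard ≤ s := by
    intro Y hY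
    by_contra hcon
    push Not at hcon
    have hfin : (N Y).Finite := Set.toFinite _
    obtain ⟨S, hSN, hS⟩ : ∃ S ⊆ hfin.toFinset, S.card = s := by
      apply Finset.exists_subset_card_eq
      rw [← Set.ncard_eq_toFinset_card _ hfin]
      exact hcon.le
    have hSN' : ∀ i ∈ S, i ∈ N Y := fun i hi => by
      have := hSN hi
      rwa [Set.Finite.mem_toFinset] at this
    have hY1 : 1 ≤ Y := by linarith
    have hch : ∀ i, ∃ p : MvPolynomial (ε ⊕ σ) ℤ, i ∈ S → (p ≠ 0 ∧ Bd d (B * Y) p ∧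
        (B * Y) ^ k₁ * ‖vl (Sum.elim η (v i)) p‖ ≤ 1) := by
      intro i
      by_cases hi : i ∈ S
      · obtain ⟨P, hP, hPB, q, hq, -, hqB, hqs⟩ := key Y hY i (hSN' i hi)
        exact ⟨q, fun _ => ⟨hq.ne_zero, hqB, small Y hY _ (norm_nonneg _) hqs.le⟩⟩
      · exact ⟨0, fun h => absurd h hi⟩
    choose p hp using hch
    have h1 := ext Y hY S hS p hp
    have h2 : (N Y).ncard ≤ S.card := by
      rw [← Set.ncard_coe_finset]
      exact Set.ncard_le_ncard h1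
    omega
  refine ⟨H₀, by linarith, fun H hH => ?_⟩
  simp only [hN']
  refine ⟨first H hH, fun hcard => ?_⟩
  have hfin : (N H).Finite := Set.toFinite _
  obtain ⟨S, hSd⟩ : ∃ S : Finset ι, S = hfin.toFinset := ⟨_, rfl⟩
  have hSN : ∀ i, i ∈ S ↔ i ∈ N H := fun i => by rw [hSd, Set.Finite.mem_toFinset]
  have hS : S.card = s := by
    rw [hSd, ← Set.ncard_eq_toFinset_card _ hfin, hcard]
  have hSNset : (S : Set ι) = N H := Set.ext hSN
  have hch : ∀ i, ∃ P p : MvPolynomial (ε ⊕ σ) ℤ, i ∈ S → (P ≠ 0 ∧ Bd d H P ∧ Irreducible p ∧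
      p ∣ P ∧ Bd d (B * H) p ∧ ‖vl (Sum.elim η (v i)) p‖ < 1 / H ^ W) := by
    intro i
    by_cases hi : i ∈ S
    · obtain ⟨P, hP, hPB, q, hq, hqP, hqB, hqs⟩ := key H hH i ((hSN i).1 hi)
      exact ⟨P, q, fun _ => ⟨hP, hPB, hq, hqP, hqB, hqs⟩⟩
    · exact ⟨0, 0, fun h => absurd h hi⟩
  choose P p hp using hch
  obtain ⟨e, he⟩ : ∃ e : ι → ℝ, e = fun i => ‖vl (Sum.elim η (v i)) (p i)‖ := ⟨_, rfl⟩
  have he0 : ∀ i, 0 ≤ e i := fun i => by rw [he]; exact norm_nonneg _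
  have hH1 : 1 ≤ H := by linarith
  have between : ∀ Y : ℝ, H ≤ Y → (∀ i ∈ S, (B * Y) ^ k₁ * e i ≤ 1) → N Y ⊆ N H := by
    intro Y hHY hle
    rw [← hSNset]
    refine ext Y (hH.trans hHY) S hS p fun i hi => ⟨(hp i hi).2.2.1.ne_zero, ?_, ?_⟩
    · exact (hp i hi).2.2.2.2.1.mono (mul_le_mul_of_nonneg_left hHY (by linarith))
    · have := hle i hi
      rw [he] at this
      exact this
  by_cases hall : ∀ i ∈ S, e i = 0
  · left
    refine ⟨fun i hi => ?_, fun Y hHY => between Y hHY fun i hi => ?_⟩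
    · have hi' := (hSN i).2 hi
      obtain ⟨hP, hPB, hpi, ⟨g, hg⟩, -, -⟩ := hp i hi'
      refine ⟨P i, hP, hPB.1, ?_⟩
      have h3 := hall i hi'
      rw [he] at h3
      simp only [norm_eq_zero] at h3
      rw [hg, vl_mul, h3, zero_mul]
    · rw [hall i hi, mul_zero]; exact zero_le_one
  · right
    push Not at hall
    obtain ⟨i₁, hi₁, hne₁⟩ := hall
    obtain ⟨i₀, hi₀, hmax⟩ := Finset.exists_max_image S e ⟨i₁, hi₁⟩
    have hpos : 0 < e i₀ := lt_of_lt_of_le (lt_of_le_of_ne (he0 i₁) (Ne.symm hne₁)) (hmax i₁ hi₁)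
    have hWpos : W ≠ 0 := by omega
    obtain ⟨Z, hZ⟩ : ∃ Z : ℝ, Z = (1 / e i₀) ^ ((W : ℝ)⁻¹) := ⟨_, rfl⟩
    have hZ0 : 0 < Z := by rw [hZ]; positivity
    have hZW : Z ^ W = 1 / e i₀ := by
      rw [hZ]; exact Real.rpow_inv_natCast_pow (by positivity) hWpos
    have hpZ : e i₀ = 1 / Z ^ W := by rw [hZW]; simp
    have he₀ : e i₀ < 1 / H ^ W := by
      have := (hp i₀ hi₀).2.2.2.2.2
      rw [he]
      exact this
    have hHZ : H ≤ Z := by
      by_contra hcon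
      push Not at hcon
      have h3 : Z ^ W < H ^ W := pow_lt_pow_left₀ hcon hZ0.le hWpos
      have h4 : 1 / H ^ W < 1 / Z ^ W := one_div_lt_one_div_of_lt (by positivity) h3
      rw [← hpZ] at h4
      linarith
    have hZ1 : 1 ≤ Z := by linarith
    refine ⟨Z, hHZ, fun Y hHY hYZ => between Y hHY fun i hi => ?_, fun Y hZY hYA => ?_⟩
    · have hY0 : 0 < Y := by linarith
      refine small Y (by linarith) _ (he0 i) ((hmax i hi).trans ?_)
      rw [hpZ]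
      exact one_div_le_one_div_of_le (by positivity)
        (pow_le_pow_left₀ (by linarith) hYZ _)
    · have hY₀ : H₀ ≤ Y := by linarith
      have hY1 : 1 ≤ Y := by linarith
      have hHY : H ≤ Y := by linarith
      have hpY : ∀ i ∈ S, (B * Y) ^ k₁ * e i ≤ 1 := by
        intro i hi
        calc (B * Y) ^ k₁ * e i ≤ (B * Z ^ A) ^ k₁ * (1 / Z ^ (A * k₁ + 1)) := by
              refine mul_le_mul ?_ ?_ (he0 i) (by positivity)
              · exact pow_le_pow_left₀ (by positivity)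
                  (mul_le_mul_of_nonneg_left hYA (by linarith)) _
              · refine (hmax i hi).trans ?_
                rw [hpZ]
                exact one_div_le_one_div_of_le (by positivity) (pow_le_pow_right₀ hZ1 (by
                  rw [hW]; omega))
          _ = B ^ k₁ / Z := by rw [mul_pow, ← pow_mul, pow_succ]; field_simp
          _ ≤ 1 := by rw [div_le_one (by linarith)]; linarith
      have hsub : N Y ⊆ N H := between Y hHY hpY
      by_contra hcon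
      push Not at hcon
      have hNY : N Y = N H := Set.eq_of_subset_of_ncard_le hsub (by rw [hcard]; exact hcon)
      have hch2 : ∀ i, ∃ q : MvPolynomial (ε ⊕ σ) ℤ, i ∈ S → (Irreducible q ∧
          Bd d (B * Y) q ∧ ‖vl (Sum.elim η (v i)) q‖ < 1 / Y ^ W) := by
        intro i
        by_cases hi : i ∈ S
        · obtain ⟨P, hP, hPB, q, hq, -, hqB, hqs⟩ := key Y hY₀ i (by rw [hNY]; exact (hSN i).1 hi)
          exact ⟨q, fun _ => ⟨hq, hqB, hqs⟩⟩
        · exact ⟨0, fun h => absurd h hi⟩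
      choose q hq using hch2
      obtain ⟨hq0, hqB, hqs⟩ := hq i₀ hi₀
      obtain ⟨-, -, hpi, -, hpB, -⟩ := hp i₀ hi₀
      have hqp : ‖vl (Sum.elim η (v i₀)) (q i₀)‖ < e i₀ := by
        rw [hpZ]
        refine hqs.trans_le (one_div_le_one_div_of_le (by positivity) ?_)
        exact pow_le_pow_left₀ hZ0.le hZY.le _
      have hrel : IsRelPrime (q i₀) (p i₀) := by
        refine hq0.isRelPrime_iff_not_dvd.2 fun hdvd => ?_
        have h7 := vl_assoc (Sum.elim η (v i₀)) (q i₀) (p i₀) (hq0.associated_of_dvd hpi hdvd)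
        rw [h7, he] at hqp
        exact lt_irrefl _ hqp
      have hBY : h₁ ≤ B * Y := by
        have : Y ≤ B * Y := le_mul_of_one_le_left (by linarith) hB
        linarith
      rcases hj2 (B * Y) hBY S hS q (fun i hi => ⟨(hq i hi).1.ne_zero, (hq i hi).2.1⟩) i₀ hi₀ (p i₀)
        (hpB.mono (mul_le_mul_of_nonneg_left hHY (by linarith))) hrel with h | h
      · obtain ⟨i, hi, hlt⟩ := h
        have := small Y hY₀ _ (norm_nonneg _) (hq i hi).2.2.le
        linarith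
      · have h8 : ‖vl (Sum.elim η (v i₀)) (p i₀)‖ = e i₀ := by rw [he]
        rw [h8] at h
        have := hpY i₀ hi₀
        linarith

/-- the law: bound, dichotomy, zero-one law -/
def LawB (s : ℕ) (η : ε → ℂ) (v : ι → σ → ℂ) (d w A : ℕ) : Prop :=
  (∃ H₀ : ℝ, ∀ H : ℝ, H₀ ≤ H → (NB η v d w H).ncard ≤ s ∧ ((NB η v d w H).ncard = s →
    ((∀ i ∈ NB η v d w H, AB η d (v i)) ∧
      ∀ Y : ℝ, H ≤ Y → NB η v d w Y ⊆ NB η v d w H) ∨
    ∃ Z : ℝ, H ≤ Z ∧ (∀ Y : ℝ, H ≤ Y → Y ≤ Z → NB η v d w Y ⊆ NB η v d w H) ∧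
      ∀ Y : ℝ, Z < Y → Y ≤ Z ^ A → (NB η v d w Y).ncard < s)) ∧
  ((∃ S : Finset ι, S.card = s ∧ ∀ i ∈ S, AB η d (v i)) ↔
    ∃ H₁ : ℝ, ∀ H : ℝ, H₁ ≤ H → s ≤ (NB η v d w H).ncard)

theorem lawB_of (s : ℕ) (η : ε → ℂ) (v : ι → σ → ℂ) (d k₁ : ℕ) (h₁ : ℝ) (hh₁ : 1 ≤ h₁)
    (hj : JB s η v d k₁ h₁) (A : ℕ) (hA : 2 ≤ A) : ∃ w : ℕ, LawB s η v d w A := by
  classical
  obtain ⟨w, h⟩ := dichB (ι := ι) (σ := σ) s η d A k₁
  obtain ⟨H₀, hH₀, h⟩ := h v h₁ hh₁ hj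
  refine ⟨w, ?_⟩
  obtain ⟨N, hN⟩ : ∃ N : ℝ → Set ι, N = fun H => NB η v d w H := ⟨_, rfl⟩
  have hN' : ∀ H, NB η v d w H = N H := fun H => by rw [hN]
  unfold LawB
  simp only [hN'] at h ⊢
  refine ⟨⟨H₀, h⟩, ?_, ?_⟩
  · rintro ⟨S, hS, hal⟩
    have hch : ∀ i, ∃ h₁ : ℝ, i ∈ S → ∀ H : ℝ, h₁ ≤ H → i ∈ N H := by
      intro i
      by_cases hi : i ∈ S
      · obtain ⟨P, hP, hPd, hPv⟩ := hal i hi
        refine ⟨max 1 (∑ l ∈ P.support, |((P.coeff l : ℤ) : ℝ)|), fun _ H hH => ?_⟩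
        rw [hN]
        refine ⟨P, hP, ⟨hPd, fun l => ?_⟩, ?_⟩
        · refine le_trans ?_ ((le_max_right _ _).trans hH)
          by_cases hl : l ∈ P.support
          · exact Finset.single_le_sum (f := fun l => |((P.coeff l : ℤ) : ℝ)|)
              (fun _ _ => abs_nonneg _) hl
          · rw [MvPolynomial.notMem_support_iff.1 hl, Int.cast_zero, abs_zero]
            exact Finset.sum_nonneg fun _ _ => abs_nonneg _
        · rw [hPv, norm_zero]
          have : 0 < H := by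
            have := (le_max_left 1 (∑ l ∈ P.support, |((P.coeff l : ℤ) : ℝ)|)).trans hH
            linarith
          positivity
      · exact ⟨0, fun h => absurd h hi⟩
    choose h₁ hh₁ using hch
    refine ⟨∑ i, |h₁ i|, fun H hH => ?_⟩
    rw [← hS, ← Set.ncard_coe_finset]
    refine Set.ncard_le_ncard fun i hi => hh₁ i hi H ?_
    exact (le_abs_self _).trans ((Finset.single_le_sum (f := fun i => |h₁ i|)
      (fun _ _ => abs_nonneg _) (Finset.mem_univ i)).trans hH)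
  · rintro ⟨H₁, h1⟩
    obtain ⟨H, hH⟩ : ∃ H : ℝ, H = max (max H₀ H₁) 2 := ⟨_, rfl⟩
    have hHH₀ : H₀ ≤ H := by rw [hH]; exact (le_max_left _ _).trans (le_max_left _ _)
    have hHH₁ : H₁ ≤ H := by rw [hH]; exact (le_max_right _ _).trans (le_max_left _ _)
    have hH2 : 2 ≤ H := by rw [hH]; exact le_max_right _ _
    have hle := h1 H hHH₁
    obtain ⟨h2, h3⟩ := h H hHH₀
    have hcard : (N H).ncard = s := le_antisymm h2 hle
    have hfin : (N H).Finite := Set.toFinite _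
    rcases h3 hcard with h4 | ⟨Z, hZ, -, h5⟩
    · refine ⟨hfin.toFinset, ?_, fun i hi => h4.1 i (by rwa [Set.Finite.mem_toFinset] at hi)⟩
      rw [← Set.ncard_eq_toFinset_card _ hfin, hcard]
    · exfalso
      have hZ2 : 2 ≤ Z := hH2.trans hZ
      have hlt : Z < Z ^ A := by
        calc Z < Z ^ 2 := by nlinarith
          _ ≤ Z ^ A := pow_le_pow_right₀ (by linarith) hA
      have h6 := h5 (Z ^ A) hlt le_rfl
      have h7 := h1 (Z ^ A) (by linarith)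
      omega

end Pool.Agent.H488.L
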