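import Pool.Agent.H488.L.Dich

/-!
# The joint measures for blocks, for arbitrary complex and for arbitrary real numbers
-/

set_option autoImplicit false
set_option linter.unusedSectionVars false

namespace Pool.Agent.H488.L

open Pool.Agent.H488.M (vl Bd Meas)
open Pool.Agent.H488.E (vl_conj)
open Pool.Agent.H488.R (rk rk_fin rk_range_le)

variable {σ τ ε ι : Type} [Fintype σ] [Fintype τ] [Fintype ε] [Fintype ι]

/-- complex numbers -/
theorem jb_complex (η : ε → ℂ) (θ : ι × σ → ℂ) (h : Meas (Sum.elim η θ))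
    (G : ι × σ → MvPolynomial τ ℂ) (hG : ∀ w m, IsAlgebraic ℚ ((G w).coeff m)) (d : ℕ)
    (y : τ → ℂ) (r₀ : ℕ)
    (hy : rk (Set.range (Sum.elim η y)) ≤ ((Fintype.card ε + r₀ : ℕ) : ℕ∞)) :
    ∃ k : ℕ, ∃ h₁ : ℝ, 1 ≤ h₁ ∧ JB r₀ η (bv G y θ) d k h₁ := by
  classical
  obtain ⟨k, h₁, hh₁, hk⟩ := blockLaw η θ h G hG d y r₀ hy
  refine ⟨k, h₁, hh₁, fun H hH S hS P hP => ?_, fun H hH S hS P hP i₀ hi₀ Q hQ hPQ => ?_⟩
  · by_contra hcon
    push Not at hcon
    obtain ⟨v, p, y', r', hv, -, -, hr', hp, hle⟩ := hk H hH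
    have h1 : ∀ i ∈ S, p i + 1 ≤ Fintype.card ε + Fintype.card σ := fun i hi => by
      have := rk_one (Sum.elim η (v i)) (P i) (hP i hi).1 (hv i (P i) (hP i hi).2 (hcon i hi)) _ (hp i)
      rwa [Fintype.card_sum] at this
    have h2 := Finset.sum_le_card_nsmul S (fun i => p i + 1) _ h1
    rw [Finset.sum_add_distrib, Finset.sum_const, smul_eq_mul, smul_eq_mul, mul_one] at h2
    have h3 := hle S
    omega
  · by_contra hcon
    push Not at hcon
    obtain ⟨hcon, hcon2⟩ := hcon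
    obtain ⟨v, p, y', r', hv, -, -, hr', hp, hle⟩ := hk H hH
    have h1 : ∀ i ∈ S.erase i₀, p i + 1 ≤ Fintype.card ε + Fintype.card σ := fun i hi' => by
      have hi := Finset.mem_of_mem_erase hi'
      have := rk_one (Sum.elim η (v i)) (P i) (hP i hi).1 (hv i (P i) (hP i hi).2 (hcon i hi)) _ (hp i)
      rwa [Fintype.card_sum] at this
    have h2 := Finset.sum_le_card_nsmul (S.erase i₀) (fun i => p i + 1) _ h1
    rw [Finset.sum_add_distrib, Finset.sum_const, smul_eq_mul, smul_eq_mul, mul_one] at h2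
    have h4 := rk_two (Sum.elim η (v i₀)) (P i₀) Q hPQ (hP i₀ hi₀).1
      (hv i₀ (P i₀) (hP i₀ hi₀).2 (hcon i₀ hi₀)) (hv i₀ Q hQ hcon2) _ (hp i₀)
    rw [Fintype.card_sum] at h4
    have h3 := hle S
    have h5 := Finset.add_sum_erase S p hi₀
    have h6 := Finset.card_erase_add_one hi₀
    rw [← h6, add_mul, one_mul] at h3
    omega

lemma rk_more {κ : Type} [Fintype κ] {ρ : Type} (z : ρ → ℂ) (x : κ → ℂ) (A : Set ℂ)
    (hA : A ⊆ Set.range x ∪ Set.range z) (n p : ℕ) (hn : rk (Set.range z) = n) (hp : rk A = p) :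
    p ≤ Fintype.card κ + n := by
  have h1 := R.rk_mono hA
  have h2 := (AlgebraicIndependent.matroid ℚ ℂ).eRk_union_le_eRk_add_eRk (Set.range x) (Set.range z)
  change rk _ ≤ rk _ + rk _ at h2
  have h3 := (h1.trans h2).trans (add_le_add_left (rk_range_le x) _)
  rw [hn, hp] at h3
  exact_mod_cast h3

/-- real numbers -/
theorem jb_real (η : ε → ℂ) (θ : ι × σ → ℂ)
    (h : Meas (Sum.elim (Sum.elim η θ) fun o => (starRingEnd ℂ) (Sum.elim η θ o)))
    (G : ι × σ → MvPolynomial τ ℂ) (hG : ∀ w m, IsAlgebraic ℚ ((G w).coeff m)) (d : ℕ)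
    (y : τ → ℝ) (r₀ : ℕ)
    (hy : rk (Set.range (Sum.elim (Sum.elim η fun l => (starRingEnd ℂ) (η l))
      fun l => (y l : ℂ))) ≤ ((2 * Fintype.card ε + r₀ : ℕ) : ℕ∞)) :
    ∃ k : ℕ, ∃ h₁ : ℝ, 1 ≤ h₁ ∧
      JB (r₀ / 2) η (bv G (fun l => (y l : ℂ)) θ) d k h₁ := by
  classical
  obtain ⟨η', hη'⟩ : ∃ η' : ε ⊕ ε → ℂ, η' = Sum.elim η fun l => (starRingEnd ℂ) (η l) := ⟨_, rfl⟩
  obtain ⟨θ', hθ'⟩ : ∃ θ' : (ι × Bool) × σ → ℂ, θ' = fun q =>
    if q.1.2 then (starRingEnd ℂ) (θ (q.1.1, q.2)) else θ (q.1.1, q.2) := ⟨_, rfl⟩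
  obtain ⟨G', hG'⟩ : ∃ G' : (ι × Bool) × σ → MvPolynomial τ ℂ, G' = fun q =>
    if q.1.2 then MvPolynomial.map (starRingEnd ℂ) (G (q.1.1, q.2)) else G (q.1.1, q.2) := ⟨_, rfl⟩
  have hM : Meas (Sum.elim η' θ') := by
    have h1 := h.comp (fun o : (ε ⊕ ε) ⊕ ((ι × Bool) × σ) => match o with
      | Sum.inl (Sum.inl l) => Sum.inl (Sum.inl l)
      | Sum.inl (Sum.inr l) => Sum.inr (Sum.inl l)
      | Sum.inr ((i, false), w) => Sum.inl (Sum.inr (i, w))
      | Sum.inr ((i, true), w) => Sum.inr (Sum.inr (i, w))) (by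
      rintro ((l | l) | ⟨⟨i, _ | _⟩, w⟩) ((l' | l') | ⟨⟨i', _ | _⟩, w'⟩) hh <;>
        simp at hh <;> simp [hh])
    have h2 : (fun o => (Sum.elim (Sum.elim η θ) fun o => (starRingEnd ℂ) (Sum.elim η θ o))
      ((fun o : (ε ⊕ ε) ⊕ ((ι × Bool) × σ) => match o with
      | Sum.inl (Sum.inl l) => Sum.inl (Sum.inl l)
      | Sum.inl (Sum.inr l) => Sum.inr (Sum.inl l)
      | Sum.inr ((i, false), w) => Sum.inl (Sum.inr (i, w))
      | Sum.inr ((i, true), w) => Sum.inr (Sum.inr (i, w))) o)) = Sum.elim η' θ' := by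
      funext o
      rw [hη', hθ']
      rcases o with (l | l) | ⟨⟨i, _ | _⟩, w⟩ <;> rfl
    rw [h2] at h1
    exact h1
  have hGa : ∀ w m, IsAlgebraic ℚ ((G' w).coeff m) := by
    rintro ⟨⟨i, _ | _⟩, w⟩ m
    · rw [hG']; exact hG _ _
    · rw [hG']
      show IsAlgebraic ℚ (MvPolynomial.coeff m (MvPolynomial.map (starRingEnd ℂ) (G (i, w))))
      rw [MvPolynomial.coeff_map]
      exact H596.Q.conj_alg _ (hG _ _)
  obtain ⟨yc, hyc⟩ : ∃ yc : τ → ℂ, yc = fun l => (y l : ℂ) := ⟨_, rfl⟩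
  rw [← hyc, ← hη'] at hy
  rw [← hyc]
  obtain ⟨k, h₁, hh₁, hk⟩ := blockLaw η' θ' hM G' hGa d yc r₀ (by
    rw [Fintype.card_sum, ← two_mul]
    exact hy)
  have hb0 : ∀ i, bv G' yc θ' (i, false) = bv G yc θ i := by
    intro i
    funext w
    rw [bv, bv, hG', hθ']
    rfl
  have hb1 : ∀ i, bv G' yc θ' (i, true) = fun w => (starRingEnd ℂ) (bv G yc θ i w) := by
    intro i
    funext w
    rw [bv, bv, map_sub, hG', hθ']
    show MvPolynomial.eval yc (MvPolynomial.map (starRingEnd ℂ) (G (i, w))) -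
      (starRingEnd ℂ) (θ (i, w)) = _
    congr 1
    rw [MvPolynomial.eval_map, MvPolynomial.eval, MvPolynomial.coe_eval₂Hom]
    have h3 := MvPolynomial.eval₂_comp_left (starRingEnd ℂ) (RingHom.id ℂ) yc (G (i, w))
    rw [h3, RingHom.comp_id]
    congr 1
    funext l
    rw [hyc]
    exact (Complex.conj_ofReal _).symm
  -- the two embeddings of the variables
  obtain ⟨f, hf⟩ : ∃ f : Bool → ε ⊕ σ → (ε ⊕ ε) ⊕ σ, f = fun b o => match o with
    | Sum.inl l => Sum.inl (if b then Sum.inr l else Sum.inl l)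
    | Sum.inr w => Sum.inr w := ⟨_, rfl⟩
  have hfi : ∀ b, Function.Injective (f b) := by
    intro b
    rw [hf]
    rintro (l | w) (l' | w') hh <;> cases b <;> simp at hh <;> simp [hh]
  -- the ranks
  have hrank : ∀ (v : ι × Bool → σ → ℂ) (p : ι × Bool → ℕ),
      (∀ j, rk (Set.range (Sum.elim η' (v j))) = p j) → ∀ j : ι × Bool, ∀ n : ℕ,
      rk (Set.range (fun o => Sum.elim η' (v j) (f j.2 o))) = n → p j ≤ Fintype.card ε + n := by
    rintro v p hp ⟨i, b⟩ n hn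
    refine rk_more _ (fun l => η' (if b then Sum.inl l else Sum.inr l)) _ ?_ n _ hn (hp (i, b))
    rintro _ ⟨o, rfl⟩
    rcases o with (l | l) | w
    · cases b
      · refine Or.inr ⟨Sum.inl l, ?_⟩
        rw [hf]; rfl
      · exact Or.inl ⟨l, rfl⟩
    · cases b
      · exact Or.inl ⟨l, rfl⟩
      · refine Or.inr ⟨Sum.inl l, ?_⟩
        rw [hf]; rfl
    · refine Or.inr ⟨Sum.inr w, ?_⟩
      rw [hf]
  -- the relations
  have hrel : ∀ (H : ℝ) (v : ι × Bool → σ → ℂ), (1 ≤ H) → (∀ j, ∀ P : MvPolynomial ((ε ⊕ ε) ⊕ σ) ℤ,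
      Bd d H P → H ^ k * ‖vl (Sum.elim η' (bv G' yc θ' j)) P‖ ≤ 1 → vl (Sum.elim η' (v j)) P = 0) →
      ∀ (i : ι) (b : Bool) (P : MvPolynomial (ε ⊕ σ) ℤ), Bd d H P →
      H ^ k * ‖vl (Sum.elim η (bv G yc θ i)) P‖ ≤ 1 →
      vl (fun o => Sum.elim η' (v (i, b)) (f b o)) P = 0 := by
    intro H v hH hv i b P hP hsm
    have e0 : ∀ x : (ε ⊕ ε) ⊕ σ → ℂ, vl x (MvPolynomial.rename (f b) P) = vl (fun o => x (f b o)) P := by
      intro x
      rw [vl, vl, MvPolynomial.aeval_rename]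
      rfl
    have h1 := hv (i, b) (MvPolynomial.rename (f b) P)
      ⟨fun o => H596.Q.ren_degree_le _ (hfi b) P d hP.1 o,
        fun m => H596.Q.ren_coeff _ (hfi b) P H (by linarith) hP.2 m⟩
    rw [e0, e0] at h1
    apply h1
    cases b
    · have e1 : (fun o => Sum.elim η' (bv G' yc θ' (i, false)) (f false o)) =
          Sum.elim η (bv G yc θ i) := by
        funext o
        rw [hf, hη', hb0]
        rcases o with l | w <;> rfl
      rw [e1]
      exact hsm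
    · have e1 : (fun o => Sum.elim η' (bv G' yc θ' (i, true)) (f true o)) =
          fun o => (starRingEnd ℂ) (Sum.elim η (bv G yc θ i) o) := by
        funext o
        rw [hf, hη', hb1]
        rcases o with l | w <;> rfl
      rw [e1, vl_conj, Complex.norm_conj]
      exact hsm
  have hdiv : r₀ < 2 * (r₀ / 2) + 2 := by omega
  have hcard : ∀ S : Finset ι, (S ×ˢ (Finset.univ : Finset Bool)).card = 2 * S.card := by
    intro S
    rw [Finset.card_product, Finset.card_univ, Fintype.card_bool, mul_comm]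
  refine ⟨k, h₁, hh₁, fun H hH S hS P hP => ?_, fun H hH S hS P hP i₀ hi₀ Q hQ hPQ => ?_⟩
  · by_contra hcon
    push Not at hcon
    obtain ⟨v, p, y', r', hv, -, -, hr', hp, hle⟩ := hk H hH
    have h1 : ∀ j ∈ S ×ˢ (Finset.univ : Finset Bool), p j + 1 ≤
        Fintype.card (ε ⊕ ε) + Fintype.card σ := fun j hj => by
      have hi := (Finset.mem_product.1 hj).1
      obtain ⟨n, hn⟩ := rk_fin (fun o => Sum.elim η' (v j) (f j.2 o))
      have h2 := rk_one _ (P j.1) (hP _ hi).1 (hrel H v (hh₁.trans hH) hv j.1 j.2 (P j.1)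
        (hP _ hi).2 (hcon _ hi)) n hn
      have h3 := hrank v p hp j n hn
      rw [Fintype.card_sum] at h2 ⊢
      omega
    have h2 := Finset.sum_le_card_nsmul _ (fun j => p j + 1) _ h1
    rw [Finset.sum_add_distrib, Finset.sum_const, smul_eq_mul, smul_eq_mul, mul_one] at h2
    have h3 := hle (S ×ˢ (Finset.univ : Finset Bool))
    have h4 := hcard S
    omega
  · by_contra hcon
    push Not at hcon
    obtain ⟨hcon, hcon2⟩ := hcon
    obtain ⟨v, p, y', r', hv, -, -, hr', hp, hle⟩ := hk H hH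
    obtain ⟨U, hU⟩ : ∃ U : Finset (ι × Bool), U = S ×ˢ (Finset.univ : Finset Bool) := ⟨_, rfl⟩
    have hmem : (i₀, true) ∈ U := by
      rw [hU]; exact Finset.mem_product.2 ⟨hi₀, Finset.mem_univ _⟩
    have h1 : ∀ j ∈ U.erase (i₀, true), p j + 1 ≤
        Fintype.card (ε ⊕ ε) + Fintype.card σ := fun j hj' => by
      have hj := Finset.mem_of_mem_erase hj'
      rw [hU] at hj
      have hi := (Finset.mem_product.1 hj).1
      obtain ⟨n, hn⟩ := rk_fin (fun o => Sum.elim η' (v j) (f j.2 o))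
      have h2 := rk_one _ (P j.1) (hP _ hi).1 (hrel H v (hh₁.trans hH) hv j.1 j.2 (P j.1)
        (hP _ hi).2 (hcon _ hi)) n hn
      have h3 := hrank v p hp j n hn
      rw [Fintype.card_sum] at h2 ⊢
      omega
    have h2 := Finset.sum_le_card_nsmul _ (fun j => p j + 1) _ h1
    rw [Finset.sum_add_distrib, Finset.sum_const, smul_eq_mul, smul_eq_mul, mul_one] at h2
    have hmem2 : (i₀, false) ∈ U.erase (i₀, true) := by
      rw [Finset.mem_erase]
      refine ⟨by simp, ?_⟩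
      rw [hU]; exact Finset.mem_product.2 ⟨hi₀, Finset.mem_univ _⟩
    have h1' : ∀ j ∈ (U.erase (i₀, true)).erase (i₀, false), p j + 1 ≤
        Fintype.card (ε ⊕ ε) + Fintype.card σ := fun j hj => h1 j (Finset.mem_of_mem_erase hj)
    have h2' := Finset.sum_le_card_nsmul _ (fun j => p j + 1) _ h1'
    rw [Finset.sum_add_distrib, Finset.sum_const, smul_eq_mul, smul_eq_mul, mul_one] at h2'
    have htwo : ∀ b : Bool, p (i₀, b) + 2 ≤ Fintype.card (ε ⊕ ε) + Fintype.card σ := by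
      intro b
      obtain ⟨n, hn⟩ := rk_fin (fun o => Sum.elim η' (v (i₀, b)) (f b o))
      have h2 := rk_two _ (P i₀) Q hPQ (hP _ hi₀).1 (hrel H v (hh₁.trans hH) hv i₀ b (P i₀)
        (hP _ hi₀).2 (hcon _ hi₀)) (hrel H v (hh₁.trans hH) hv i₀ b Q hQ hcon2) n hn
      have h3 := hrank v p hp (i₀, b) n hn
      rw [Fintype.card_sum] at h2 ⊢
      omega
    have h3 := hle U
    have h4 := hcard S
    rw [← hU] at h4
    have h5 := Finset.add_sum_erase U p hmem
    have h6 := Finset.card_erase_add_one hmem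
    have h7 := Finset.add_sum_erase (U.erase (i₀, true)) p hmem2
    have h8 := Finset.card_erase_add_one hmem2
    rw [← h6, ← h8, add_mul, add_mul, one_mul] at h3
    have h9 := htwo true
    have h10 := htwo false
    omega

end Pool.Agent.H488.L
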