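import Pool.Agent.H488.E.Qb
import Pool.Agent.H488.L.Jb
import Pool.Graph.R_pool_sql_team_seeded_63374d34.N778.MZ.Gen

/-!
# Measures for the damped multiple zeta values
-/

set_option autoImplicit false
set_option linter.unusedSectionVars false

namespace Pool.Agent.H488.L

open Pool.Agent.H488.M (vl Bd Meas)
open Pool.Agent.N902.EW
open Pool.Agent.N778

variable {κ ε : Type} [Fintype κ] [Fintype ε]

/-- the generators of the ring -/
def Gr : Set ℂ := {z | IsAlgebraic ℚ z} ∪ {z | ∃ b : ℂ, IsAlgebraic ℚ b ∧ z = Complex.exp b} ∪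
  {z | ∃ w : List ℂ, Wd w ∧ NoOp w ∧ z = II w 1}

lemma Gr_eq : GG = Gr := GG_eq

lemma mem_range_of_Gr {z : ℂ} (hz : z ∈ Algebra.adjoin ℚ Gr) : z ∈ (evA io).range := by
  rw [← Gr_eq] at hz
  obtain ⟨f, hf, -⟩ := MZ.exists_killed2 hz
  exact ⟨f, hf⟩

lemma mem_KK_of_Gr {z : ℂ} (hz : z ∈ Algebra.adjoin ℚ Gr) : z ∈ KK := by
  have h : Algebra.adjoin ℚ Gr ≤ KK.toSubalgebra := by
    rw [Algebra.adjoin_le_iff]
    exact IntermediateField.subset_adjoin ℚ Gr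
  exact h hz

lemma S_mem_range {w : List ℕ} (hw : MZ.GW w) {x : ℂ} (hx : IsAlgebraic ℚ x) (hx0 : x ≠ 0) :
    MZ.S w x ∈ (evA io).range := by
  obtain ⟨f, hf⟩ := mem_range_io hx
  have hf0 : f ≠ 0 := by
    intro h
    rw [h, map_zero] at hf
    exact hx0 hf.symm
  refine ⟨MZ.FdA f hf0 (w.map (· - 1)), ?_⟩
  rw [MZ.Sn_eq hw.2.1, MZ.FdA, MZ.evA_Fd hf0, hf]

/-- **The measure.** -/
theorem meas_S (η : ε → ℂ) (hη : ∀ l, η l ∈ Algebra.adjoin ℚ Gr) (hηi : AlgebraicIndependent ℚ η)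
    (w : κ → List ℕ) (x : κ → ℂ) (hw : ∀ i, MZ.GW (w i)) (hx : ∀ i, IsAlgebraic ℚ (x i))
    (hx2 : ∀ i j, x i + x j ≠ 0) (hinj : Function.Injective fun i => (w i, x i)) :
    Meas (Sum.elim η fun i => MZ.S (w i) (x i)) := by
  classical
  have hX : ∀ z ∈ Set.range x, IsAlgebraic ℚ z ∧ ∀ y ∈ Set.range x, z + y ≠ 0 := by
    rintro _ ⟨i, rfl⟩
    refine ⟨hx i, ?_⟩
    rintro _ ⟨j, rfl⟩
    exact hx2 i j
  have h1 := MZ.ai_G (Set.range x) hX
  have h2 := h1.comp (fun i : κ => (⟨(w i, x i), hw i, ⟨i, rfl⟩⟩ :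
    {p : List ℕ × ℂ // MZ.GW p.1 ∧ p.2 ∈ Set.range x})) (by
      intro i j hij
      exact hinj (congrArg Subtype.val hij))
  have h4 := hηi.sumElim_of_tower (S := KK) (by
    rintro _ ⟨i, rfl⟩
    exact ⟨⟨_, mem_KK_of_Gr (hη i)⟩, rfl⟩) h2
  have h5 := h4.comp (Sum.swap : ε ⊕ κ → κ ⊕ ε) Sum.swap_leftInverse.injective
  have h6 : (Sum.elim ((fun p : {p : List ℕ × ℂ // MZ.GW p.1 ∧ p.2 ∈ Set.range x} =>
      MZ.S p.1.1 p.1.2) ∘ fun i : κ => (⟨(w i, x i), hw i, ⟨i, rfl⟩⟩ :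
      {p : List ℕ × ℂ // MZ.GW p.1 ∧ p.2 ∈ Set.range x})) η) ∘ (Sum.swap : ε ⊕ κ → κ ⊕ ε) =
      Sum.elim η fun i => MZ.S (w i) (x i) := by
    funext o
    rcases o with l | i <;> rfl
  rw [h6] at h5
  refine E.meas_range _ ?_ h5
  rintro (l | i)
  · exact mem_range_of_Gr (hη l)
  · have hx0 : x i ≠ 0 := fun h0 => hx2 i i (by rw [h0, add_zero])
    exact S_mem_range (hw i) (hx i) hx0

lemma H_conj (w : List ℕ) : ∀ j, (starRingEnd ℂ) (MZ.H w j) = MZ.H w j := by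
  induction w with
  | nil => intro j; rw [MZ.H, map_one]
  | cons k w ih =>
    intro j
    rw [MZ.H, map_sum]
    refine Finset.sum_congr rfl fun i _ => ?_
    rw [map_div₀, map_pow, map_add, map_natCast, map_one, ih]

lemma S_conj (w : List ℕ) (x : ℂ) : MZ.S w ((starRingEnd ℂ) x) = (starRingEnd ℂ) (MZ.S w x) := by
  rw [MZ.S, MZ.S, map_mul, Complex.conj_tsum, ← Complex.exp_conj, map_neg]
  congr 1
  refine tsum_congr fun j => ?_
  rw [map_mul, map_div₀, map_pow, map_natCast, H_conj]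

lemma zt_conj (w : List ℕ) : (starRingEnd ℂ) (MZ.zt w) = MZ.zt w := by
  rcases w with _ | ⟨k, w⟩
  · show (starRingEnd ℂ) (1 : ℂ) = 1
    rw [map_one]
  · rw [MZ.zt, Complex.conj_tsum]
    refine tsum_congr fun i => ?_
    rw [map_div₀, map_pow, map_add, map_natCast, map_one, H_conj]

end Pool.Agent.H488.L
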