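import Pool.Agent.H488.R.Cod2
import Pool.Agent.H488.M.Gen

/-!
# Ranks of points with one or two relations, and of several blocks
-/

set_option autoImplicit false
set_option linter.unusedSectionVars false

namespace Pool.Agent.H488.L

open Pool.Agent.H488.M (vl Bd Meas pt)
open Pool.Agent.H488.R (rk rk_mono rk_cls cls mem_cls alg_cls rk_fin rk_range_le exists_coord)

/-- a coordinate of a Bool -/
lemma vl_ind {ρ : Type} {z : ρ → ℂ} (h : AlgebraicIndependent ℚ z) (P : MvPolynomial ρ ℤ)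
    (hP : vl z P = 0) : P = 0 := by
  have h5 : AlgebraicIndependent ℤ z := h.restrictScalars (RingHom.injective_int (algebraMap ℤ ℚ))
  exact (algebraicIndependent_iff.1 h5) P hP

/-- one relation -/
lemma rk_one {ρ : Type} [Fintype ρ] (z : ρ → ℂ) (P : MvPolynomial ρ ℤ) (hP : P ≠ 0)
    (h : vl z P = 0) (n : ℕ) (hn : rk (Set.range z) = n) : n + 1 ≤ Fintype.card ρ := by
  classical
  by_contra hcon
  have hle : n ≤ Fintype.card ρ := by
    have := rk_range_le z
    rw [hn] at this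
    exact_mod_cast this
  have hn' : n = Fintype.card ρ := by omega
  obtain ⟨S, hS, hind⟩ := exists_coord z n (by rw [hn])
  have hSu : S = Finset.univ := Finset.eq_univ_of_card S (by rw [hS, hn'])
  have h3 : AlgebraicIndependent ℚ z :=
    hind.comp (fun i : ρ => (⟨i, by rw [hSu]; exact Finset.mem_univ i⟩ : S)) (by
      intro i j hij
      exact congrArg Subtype.val hij)
  exact hP (vl_ind h3 P h)

open Polynomial in
/-- elimination of one variable -/
lemma elim_one {σ : Type} (t : ℂ) (θ : σ → ℂ) (hθ : AlgebraicIndependent ℚ θ)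
    (P Q : MvPolynomial (Option σ) ℤ) (hPQ : IsRelPrime P Q) (hP0 : P ≠ 0) (hP : vl (pt t θ) P = 0)
    (hQ : vl (pt t θ) Q = 0) : False := by
  classical
  set p := MvPolynomial.optionEquivLeft ℤ σ P with hp
  set q := MvPolynomial.optionEquivLeft ℤ σ Q with hq
  have hres : resultant p q ≠ 0 := by
    refine Pool.Agent.H596.Q.res_ne' _ _ fun D hD1 hD2 => ?_
    have e1 : D = MvPolynomial.optionEquivLeft ℤ σ ((MvPolynomial.optionEquivLeft ℤ σ).symm D) :=
      (AlgEquiv.apply_symm_apply _ _).symm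
    rw [e1] at hD1 hD2
    have h3 := hPQ ((map_dvd_iff (MvPolynomial.optionEquivLeft ℤ σ)).1 hD1)
      ((map_dvd_iff (MvPolynomial.optionEquivLeft ℤ σ)).1 hD2)
    have h4 : IsUnit D := by
      rw [e1]
      exact h3.map (MvPolynomial.optionEquivLeft ℤ σ)
    obtain ⟨r, -, hr⟩ := Polynomial.isUnit_iff.1 h4
    rw [← hr, Polynomial.natDegree_C]
  set ρ : MvPolynomial σ ℤ →+* ℂ := ((MvPolynomial.aeval θ : MvPolynomial σ ℤ →ₐ[ℤ] ℂ) :
        MvPolynomial σ ℤ →+* ℂ) with hρ
  have hinj : Function.Injective ρ := by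
    rw [injective_iff_map_eq_zero]
    intro F hF
    exact vl_ind hθ F hF
  rw [M.vl_eq, ← hp, ← hρ] at hP
  rw [M.vl_eq, ← hq, ← hρ] at hQ
  have hp0 : p ≠ 0 := by
    rw [hp, Ne, EmbeddingLike.map_eq_zero_iff]; exact hP0
  have hpm : p.map ρ ≠ 0 := (Polynomial.map_ne_zero_iff hinj).2 hp0
  have hpd : 0 < p.natDegree := by
    by_contra h0
    have h1 := eq_C_of_natDegree_eq_zero (show p.natDegree = 0 by omega)
    rw [h1, Polynomial.map_C, Polynomial.eval_C] at hP
    have h2 : p.coeff 0 = 0 := hinj (by rw [hP, map_zero])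
    exact hp0 (by rw [h1, h2, Polynomial.C_0])
  have hr : (resultant (p.map ρ) (q.map ρ) p.natDegree q.natDegree) = 0 := by
    obtain ⟨A, B, -, -, hAB⟩ := Polynomial.exists_mul_add_mul_eq_C_resultant (p.map ρ) (q.map ρ)
      (m := p.natDegree) (n := q.natDegree) Polynomial.natDegree_map_le Polynomial.natDegree_map_le
      (Or.inl hpd.ne')
    have h1 := congrArg (Polynomial.eval t) hAB
    rw [Polynomial.eval_add, Polynomial.eval_mul, Polynomial.eval_mul, hP, hQ, zero_mul, zero_mul,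
      add_zero, Polynomial.eval_C] at h1
    exact h1.symm
  rw [resultant_map_map] at hr
  exact hres (hinj (by rw [hr, map_zero]))

/-- two relations without a common factor -/
lemma rk_two {ρ : Type} [Fintype ρ] (z : ρ → ℂ) (P Q : MvPolynomial ρ ℤ) (hPQ : IsRelPrime P Q)
    (hP0 : P ≠ 0) (hP : vl z P = 0) (hQ : vl z Q = 0) (n : ℕ) (hn : rk (Set.range z) = n) :
    n + 2 ≤ Fintype.card ρ := by
  classical
  by_contra hcon
  have h1 := rk_one z P hP0 hP n hn
  obtain ⟨S, hS, hind⟩ := exists_coord z n (by rw [hn])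
  have hSc : Sᶜ.card = 1 := by
    rw [Finset.card_compl, hS]
    omega
  obtain ⟨o, ho⟩ := Finset.card_eq_one.1 hSc
  have hmem : ∀ i, i ≠ o → i ∈ S := by
    intro i hi
    by_contra h2
    have h3 : i ∈ Sᶜ := Finset.mem_compl.2 h2
    rw [ho, Finset.mem_singleton] at h3
    exact hi h3
  let e : Option {i : ρ // i ≠ o} ≃ ρ := Equiv.optionSubtypeNe o
  have hθ : AlgebraicIndependent ℚ fun i : {i : ρ // i ≠ o} => z i :=
    hind.comp (fun i : {i : ρ // i ≠ o} => (⟨i.1, hmem i.1 i.2⟩ : S)) (by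
      intro i j hij
      exact Subtype.ext (congrArg (fun z : S => z.1) hij))
  have hpt : pt (z o) (fun i : {i : ρ // i ≠ o} => z i) = fun j => z (e j) := by
    funext j
    rcases j with _ | i
    · show z o = z (e none)
      rw [Equiv.optionSubtypeNe_none]
    · show z i = z (e (some i))
      rw [Equiv.optionSubtypeNe_some]
  have hval : ∀ F : MvPolynomial ρ ℤ, vl (pt (z o) (fun i : {i : ρ // i ≠ o} => z i))
      (MvPolynomial.renameEquiv ℤ e.symm F) = vl z F := by
    intro F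
    rw [hpt, vl, vl, MvPolynomial.renameEquiv_apply, MvPolynomial.aeval_rename]
    congr 2
    funext i
    simp
  refine elim_one (z o) (fun i : {i : ρ // i ≠ o} => z i) hθ
    (MvPolynomial.renameEquiv ℤ e.symm P) (MvPolynomial.renameEquiv ℤ e.symm Q) ?_ ?_ ?_ ?_
  · intro D hD1 hD2
    have e1 : D = MvPolynomial.renameEquiv ℤ e.symm ((MvPolynomial.renameEquiv ℤ e.symm).symm D) :=
      (AlgEquiv.apply_symm_apply _ _).symm
    rw [e1] at hD1 hD2 ⊢
    exact (hPQ ((map_dvd_iff (MvPolynomial.renameEquiv ℤ e.symm)).1 hD1)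
      ((map_dvd_iff (MvPolynomial.renameEquiv ℤ e.symm)).1 hD2)).map
      (MvPolynomial.renameEquiv ℤ e.symm)
  · rw [Ne, EmbeddingLike.map_eq_zero_iff]; exact hP0
  · rw [hval]; exact hP
  · rw [hval]; exact hQ

/-- several blocks with a common part -/
lemma rk_blocks {ι : Type} [DecidableEq ι] (E : Set ℂ) (A : ι → Set ℂ) (e : ℕ) (he : rk E = e)
    (p : ι → ℕ) (hp : ∀ i, rk (E ∪ A i) = p i) (S : Finset ι) :
    ∃ n : ℕ, rk (E ∪ ⋃ i ∈ S, A i) = n ∧ n + S.card * e ≤ (∑ i ∈ S, p i) + e := by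
  induction S using Finset.induction_on with
  | empty => exact ⟨e, by simpa using he, by simp⟩
  | insert a S ha ih =>
    obtain ⟨n, hn, hle⟩ := ih
    have hu : E ∪ ⋃ i ∈ insert a S, A i = (E ∪ A a) ∪ (E ∪ ⋃ i ∈ S, A i) := by
      rw [Finset.set_biUnion_insert]
      ext z
      simp only [Set.mem_union]
      tauto
    have h1 := (AlgebraicIndependent.matroid ℚ ℂ).eRk_inter_add_eRk_union_le
      (E ∪ A a) (E ∪ ⋃ i ∈ S, A i)
    have h2 : rk E ≤ rk ((E ∪ A a) ∩ (E ∪ ⋃ i ∈ S, A i)) :=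
      rk_mono fun z hz => ⟨Or.inl hz, Or.inl hz⟩
    have h3 : rk E + rk ((E ∪ A a) ∪ (E ∪ ⋃ i ∈ S, A i)) ≤
        rk (E ∪ A a) + rk (E ∪ ⋃ i ∈ S, A i) := (add_le_add h2 le_rfl).trans h1
    rw [← hu, he, hp, hn] at h3
    have h4 : rk (E ∪ ⋃ i ∈ insert a S, A i) ≠ ⊤ := by
      intro h5
      rw [h5, add_top] at h3
      exact absurd (top_le_iff.1 h3) (by exact_mod_cast ENat.natCast_ne_top (p a + n))
    obtain ⟨m, hm⟩ := ENat.ne_top_iff_exists.1 h4
    refine ⟨m, hm.symm, ?_⟩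
    rw [← hm] at h3
    have h5 : e + m ≤ p a + n := by exact_mod_cast h3
    rw [Finset.card_insert_of_notMem ha, Finset.sum_insert ha, add_mul, one_mul]
    omega

end Pool.Agent.H488.L
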