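import Pool.Agent.H488.L.Rk

/-!
# The rank does not increase at nearby points which satisfy the same relations
-/

set_option autoImplicit false
set_option linter.unusedSectionVars false

namespace Pool.Agent.H488.L

open Pool.Agent.H488.M (vl Bd Meas pt)
open Pool.Agent.H488.R (rk rk_mono rk_cls cls mem_cls alg_cls rk_fin rk_range_le rk_of_ind
  exists_coord)

lemma cont_vl {ρ : Type} (P : MvPolynomial ρ ℤ) : Continuous fun z : ρ → ℂ => vl z P := by
  have h1 : (fun z : ρ → ℂ => vl z P) = fun z =>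
      MvPolynomial.eval z (MvPolynomial.map (Int.castRingHom ℂ) P) := by
    funext z
    rw [vl, MvPolynomial.aeval_def, MvPolynomial.eval_map]
    rfl
  rw [h1]
  exact MvPolynomial.continuous_eval _

open Polynomial in
/-- a polynomial relation with nonzero leading coefficient -/
lemma alg_of_lead {σ : Type} (t : ℂ) (θ : σ → ℂ) (P : MvPolynomial (Option σ) ℤ)
    (hlead : vl θ (MvPolynomial.optionEquivLeft ℤ σ P).leadingCoeff ≠ 0)
    (hP : vl (pt t θ) P = 0) : t ∈ cls (Set.range θ) := by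
  classical
  set p := MvPolynomial.optionEquivLeft ℤ σ P with hp
  have hmem : ∀ Q : MvPolynomial σ ℤ, vl θ Q ∈ Algebra.adjoin ℚ (Set.range θ) := by
    intro Q
    induction Q using MvPolynomial.induction_on with
    | C a =>
      rw [vl, MvPolynomial.aeval_C]
      have h := (Algebra.adjoin ℚ (Set.range θ)).algebraMap_mem (a : ℚ)
      have e : (algebraMap ℚ ℂ) (a : ℚ) = (algebraMap ℤ ℂ) a := by simp
      rwa [e] at h
    | add p q hp hq => rw [vl, map_add]; exact Subalgebra.add_mem _ hp hq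
    | mul_X p i hp =>
      rw [vl, map_mul, MvPolynomial.aeval_X]
      exact Subalgebra.mul_mem _ hp (Algebra.subset_adjoin ⟨i, rfl⟩)
  let φ : MvPolynomial σ ℤ →+* Algebra.adjoin ℚ (Set.range θ) :=
    ((MvPolynomial.aeval θ : MvPolynomial σ ℤ →ₐ[ℤ] ℂ) : MvPolynomial σ ℤ →+* ℂ).codRestrict
      (Algebra.adjoin ℚ (Set.range θ)) hmem
  refine ⟨p.map φ, fun h0 => hlead ?_, ?_⟩
  · have h1 := congrArg (fun q => q.coeff p.natDegree) h0
    simp only [coeff_map, coeff_zero] at h1
    exact congrArg Subtype.val h1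
  · rw [M.vl_eq, ← hp] at hP
    rw [Polynomial.aeval_def, Polynomial.eval₂_map]
    rw [Polynomial.eval_map] at hP
    exact hP

/-- **Semicontinuity of the rank.** -/
theorem rank_semi {ρ : Type} [Fintype ρ] (z : ρ → ℂ) (n : ℕ) (hn : rk (Set.range z) = n) :
    ∃ (D : ℕ) (L δ : ℝ), 0 < δ ∧ ∀ z' : ρ → ℂ, (∀ o, ‖z' o - z o‖ ≤ δ) →
      (∀ P : MvPolynomial ρ ℤ, P.totalDegree ≤ D → (∀ m, |((P.coeff m : ℤ) : ℝ)| ≤ L) →
        vl z P = 0 → vl z' P = 0) → rk (Set.range z') ≤ n := by
  classical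
  obtain ⟨S, hS, hind⟩ := exists_coord z n (by rw [hn])
  -- the relations
  have hrel : ∀ o : ρ, o ∉ S → ∃ P : MvPolynomial (Option S) ℤ, P ≠ 0 ∧
      vl (pt (z o) fun i : S => z i) P = 0 := by
    intro o ho
    by_contra hcon
    push Not at hcon
    have h1 : AlgebraicIndependent ℤ (pt (z o) fun i : S => z i) := by
      rw [algebraicIndependent_iff]
      intro P hP
      by_contra h0
      exact hcon P h0 hP
    have hZQ : Algebra.IsAlgebraic ℤ ℚ := IsLocalization.isAlgebraic (R := ℤ) (S := ℚ) (nonZeroDivisors ℤ)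
    have h2 : AlgebraicIndependent ℚ (pt (z o) fun i : S => z i) := h1.extendScalars ℚ
    have h3 := rk_of_ind _ h2
    have h4 : rk (Set.range (pt (z o) fun i : S => z i)) ≤ rk (Set.range z) := by
      refine rk_mono ?_
      rintro _ ⟨j, rfl⟩
      rcases j with _ | i
      · exact ⟨o, rfl⟩
      · exact ⟨i, rfl⟩
    rw [h3, hn, Fintype.card_option, Fintype.card_coe, hS] at h4
    have h5 : n + 1 ≤ n := by exact_mod_cast h4
    omega
  have hrel' : ∀ o : ρ, ∃ P : MvPolynomial (Option S) ℤ, P ≠ 0 ∧ (o ∉ S →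
      vl (pt (z o) fun i : S => z i) P = 0) := by
    intro o
    by_cases ho : o ∈ S
    · exact ⟨1, one_ne_zero, fun h => absurd ho h⟩
    · obtain ⟨P, h1, h2⟩ := hrel o ho
      exact ⟨P, h1, fun _ => h2⟩
  choose P hP0 hP using hrel'
  -- the leading coefficients
  have hlead : ∀ o, vl (fun i : S => z i) (MvPolynomial.optionEquivLeft ℤ S (P o)).leadingCoeff ≠ 0 := by
    intro o h0
    have h1 := vl_ind hind _ h0
    rw [Polynomial.leadingCoeff_eq_zero, EmbeddingLike.map_eq_zero_iff] at h1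
    exact hP0 o h1
  have hopen : ∀ᶠ z' in nhds z, ∀ o, vl (fun i : S => z' i)
      (MvPolynomial.optionEquivLeft ℤ S (P o)).leadingCoeff ≠ 0 := by
    rw [Filter.eventually_all]
    intro o
    have hc : Continuous fun z' : ρ → ℂ => vl (fun i : S => z' i)
        (MvPolynomial.optionEquivLeft ℤ S (P o)).leadingCoeff :=
      (cont_vl _).comp (continuous_pi fun i => continuous_apply _)
    exact hc.continuousAt.eventually_ne (hlead o)
  obtain ⟨δ, hδ, h3⟩ := Metric.eventually_nhds_iff.1 hopen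
  -- the polynomials in the variables `ρ`
  obtain ⟨g, hg⟩ : ∃ g : ρ → Option S → ρ, g = fun o j => j.elim o fun i => (i : ρ) := ⟨_, rfl⟩
  obtain ⟨F, hF⟩ : ∃ F : ρ → MvPolynomial ρ ℤ, F = fun o => MvPolynomial.rename (g o) (P o) := ⟨_, rfl⟩
  have hFv : ∀ (x : ρ → ℂ) (o : ρ), vl x (F o) = vl (pt (x o) fun i : S => x i) (P o) := by
    intro x o
    rw [hF, vl, vl, MvPolynomial.aeval_rename]
    congr 2
    funext j
    rw [hg]
    rcases j with _ | i <;> rfl
  refine ⟨∑ o, (F o).totalDegree, ∑ o, N743.SS.lenM (F o), δ / 2, by positivity,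
    fun z' hz' hz => ?_⟩
  have h4 : dist z' z < δ := by
    refine lt_of_le_of_lt ((dist_pi_le_iff (by positivity)).2 fun j => ?_) (half_lt_self hδ)
    rw [dist_eq_norm]
    exact hz' j
  have hz'l := h3 h4
  have hsub : Set.range z' ⊆ cls (Set.range fun i : S => z' i) := by
    rintro _ ⟨o, rfl⟩
    by_cases ho : o ∈ S
    · exact mem_cls ⟨⟨o, ho⟩, rfl⟩
    · refine alg_of_lead (z' o) (fun i : S => z' i) (P o) (hz'l o) ?_
      rw [← hFv]
      refine hz (F o) ?_ (fun m => ?_) (by rw [hFv]; exact hP o ho)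
      · exact Finset.single_le_sum (f := fun o => (F o).totalDegree) (fun _ _ => Nat.zero_le _)
          (Finset.mem_univ o)
      · refine (R.lenM_coeff _ m).trans ?_
        exact Finset.single_le_sum (f := fun o => N743.SS.lenM (F o)) (fun _ _ => R.lenM_nonneg _)
          (Finset.mem_univ o)
  have h5 := rk_mono hsub
  rw [rk_cls] at h5
  refine h5.trans ((rk_range_le _).trans ?_)
  rw [Fintype.card_coe, hS]

end Pool.Agent.H488.L
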